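import Pool.Agent.Lib.MP_f3d5fe_al.CaseB

set_option autoImplicit false

namespace Pool.Agent.Lib.MP_f3d5fe_al

open Classical Finset

universe u

section basic

variable {G : Type u} [Group G] [Fintype G] {p : ℕ} [hp : Fact p.Prime]

omit [Fintype G] in
lemma index_mul_card_comm : (((commutator G).index : ℕ) : ℝ) * ((Nat.card (commutator G) : ℕ) : ℝ)
    = ((Nat.card G : ℕ) : ℝ) := by
  exact_mod_cast Subgroup.index_mul_card (commutator G)

lemma w_ge (x : G) : (((Nat.card (commutator G) : ℕ) : ℝ))⁻¹ ≤ w x := by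
  unfold w
  apply inv_anti₀
  · exact_mod_cast cs_pos x
  · exact_mod_cast cs_le_commutator x

lemma card_filter_mem (K : Subgroup G) :
    (univ.filter (fun x : G => x ∈ K)).card = Nat.card K := by
  rw [Nat.card_eq_fintype_card, Fintype.card_subtype]

lemma card_outside (K : Subgroup G) (hK : K ≠ ⊤) :
    ((Nat.card G : ℕ) : ℝ) ≤ 2 * ((univ.filter (fun x : G => x ∉ K)).card : ℝ) := by
  have h1 : 2 * Nat.card K ≤ Nat.card G := by
    rw [← Subgroup.index_mul_card K]
    exact Nat.mul_le_mul_right _ (Subgroup.one_lt_index_of_ne_top hK)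
  have h2 : (univ.filter (fun x : G => x ∈ K)).card + (univ.filter (fun x : G => x ∉ K)).card =
      Nat.card G := by
    rw [Finset.card_filter_add_card_filter_not, Finset.card_univ, Nat.card_eq_fintype_card]
  rw [card_filter_mem] at h2
  have h3 : Nat.card G ≤ 2 * (univ.filter (fun x : G => x ∉ K)).card := by omega
  exact_mod_cast h3

lemma zs_ge (hG : IsPGroup p G) {χ : G → ℂ} (hχ : χ ∈ NL G) :
    (((commutator G).index : ℕ) : ℝ) / 2 ≤ zs χ := by
  obtain ⟨K, hK, -, hv⟩ := nonlinear_vanish hG (mem_NL.1 hχ).1 (mem_NL.1 hχ).2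
  have h1 : ∑ x ∈ univ.filter (fun x : G => x ∉ K), w x ≤ zs χ := by
    apply Finset.sum_le_sum_of_subset_of_nonneg
    · intro x hx
      rw [mem_filter] at hx ⊢
      exact ⟨mem_univ _, hv x hx.2⟩
    · exact fun x _ _ => (w_pos x).le
  refine le_trans ?_ h1
  have h2 : ((univ.filter (fun x : G => x ∉ K)).card : ℝ) *
      ((Nat.card (commutator G) : ℕ) : ℝ)⁻¹ ≤ ∑ x ∈ univ.filter (fun x : G => x ∉ K), w x := by
    rw [← nsmul_eq_mul, ← Finset.sum_const]
    exact Finset.sum_le_sum fun x _ => w_ge x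
  refine le_trans ?_ h2
  have h3 := card_outside K hK
  have h4 : (0 : ℝ) < ((Nat.card (commutator G) : ℕ) : ℝ) := by exact_mod_cast Nat.card_pos
  rw [← div_eq_mul_inv, div_le_div_iff₀ (by norm_num) h4, index_mul_card_comm]
  linarith

/-- (A1) -/
lemma index_le (hG : IsPGroup p G) (a : ℝ) (ha : zz G = a * kk G)
    (hA : (((commutator G).index : ℕ) : ℝ) < 2 * (NL G).card) :
    (((commutator G).index : ℕ) : ℝ) ≤ 6 * a := by
  set l : ℝ := (((commutator G).index : ℕ) : ℝ) with hl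
  set t : ℝ := (((NL G).card : ℕ) : ℝ) with ht
  have hk : kk G = l + t := kk_eq_add
  have hkpos : 0 < kk G := kk_pos
  have hl0 : 0 ≤ l := Nat.cast_nonneg _
  have h1 : t * (l / 2) ≤ zz G := by
    rw [zz_eq_NL, ht, ← nsmul_eq_mul, ← Finset.sum_const]
    exact Finset.sum_le_sum fun χ hχ => zs_ge hG hχ
  have h2 : kk G / 3 ≤ t := by linarith
  have h3 : kk G / 3 * (l / 2) ≤ a * kk G := by
    rw [← ha]
    exact (mul_le_mul_of_nonneg_right h2 (by linarith)).trans h1
  have h4 : l / 6 * kk G ≤ a * kk G := by linarith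
  have := le_of_mul_le_mul_right h4 hkpos
  linarith

/-- (A2) -/
lemma exists_x0 (hG : IsPGroup p G) (a : ℝ) (ha : zz G = a * kk G)
    (hA : (((commutator G).index : ℕ) : ℝ) < 2 * (NL G).card) :
    ∃ x : G, ((Nat.card G : ℕ) : ℝ) ≤ 6 * a * cs x := by
  set l : ℝ := (((commutator G).index : ℕ) : ℝ) with hl
  set t : ℝ := (((NL G).card : ℕ) : ℝ) with ht
  have hk : kk G = l + t := kk_eq_add
  have hkpos : 0 < kk G := kk_pos
  have hl0 : 0 ≤ l := Nat.cast_nonneg _
  have ha0 : 0 ≤ a := by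
    by_contra h
    have h1 : a * kk G < 0 := mul_neg_of_neg_of_pos (not_le.1 h) hkpos
    have h2 := zz_nonneg (G := G)
    linarith
  have hne : (NL G).Nonempty := by
    rw [← Finset.card_pos]
    have : 0 < t := by linarith
    rw [ht] at this
    exact_mod_cast this
  obtain ⟨χ, hχ, hle⟩ : ∃ χ ∈ NL G, zs χ ≤ 3 * a := by
    apply Finset.exists_le_of_sum_le hne
    rw [← zz_eq_NL, Finset.sum_const, nsmul_eq_mul, ha, ← ht]
    nlinarith
  obtain ⟨K, hK, -, hv⟩ := nonlinear_vanish hG (mem_NL.1 hχ).1 (mem_NL.1 hχ).2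
  have h1 : ∑ x ∈ univ.filter (fun x : G => x ∉ K), w x ≤ zs χ := by
    apply Finset.sum_le_sum_of_subset_of_nonneg
    · intro x hx
      rw [mem_filter] at hx ⊢
      exact ⟨mem_univ _, hv x hx.2⟩
    · exact fun x _ _ => (w_pos x).le
  have h3 := card_outside K hK
  have hGpos : (0 : ℝ) < ((Nat.card G : ℕ) : ℝ) := by exact_mod_cast Nat.card_pos
  have hne2 : (univ.filter (fun x : G => x ∉ K)).Nonempty := by
    rw [← Finset.card_pos]
    have : (0 : ℝ) < ((univ.filter (fun x : G => x ∉ K)).card : ℝ) := by linarith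
    exact_mod_cast this
  obtain ⟨x, -, hx⟩ : ∃ x ∈ univ.filter (fun x : G => x ∉ K),
      w x ≤ 6 * a / ((Nat.card G : ℕ) : ℝ) := by
    apply Finset.exists_le_of_sum_le hne2
    rw [Finset.sum_const, nsmul_eq_mul]
    refine (h1.trans hle).trans ?_
    rw [mul_div_assoc', le_div_iff₀ hGpos]
    nlinarith
  refine ⟨x, ?_⟩
  unfold w at hx
  have h6 : (0 : ℝ) < cs x := by exact_mod_cast cs_pos x
  rw [inv_eq_one_div, div_le_div_iff₀ h6 hGpos] at hx
  linarith

/-- (A3) -/
lemma center_quot_le {B : ℝ} {x : G} (hx : ((Nat.card G : ℕ) : ℝ) ≤ B * cs x)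
    (N : Subgroup G) [N.Normal] :
    ((Nat.card (Subgroup.center (G ⧸ N)) : ℕ) : ℝ) ≤ B := by
  have h1 := cs_le_mk N x
  have h2 := cs_mul_center_le (x : G ⧸ N)
  have h3 : Nat.card (G ⧸ N) * Nat.card N = Nat.card G := Subgroup.index_mul_card N
  have h4 : cs x * Nat.card (Subgroup.center (G ⧸ N)) ≤ Nat.card G := by
    calc cs x * Nat.card (Subgroup.center (G ⧸ N))
        ≤ (Nat.card N * cs (x : G ⧸ N)) * Nat.card (Subgroup.center (G ⧸ N)) :=
          Nat.mul_le_mul_right _ h1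
      _ = (cs (x : G ⧸ N) * Nat.card (Subgroup.center (G ⧸ N))) * Nat.card N := by ring
      _ ≤ Nat.card (G ⧸ N) * Nat.card N := Nat.mul_le_mul_right _ h2
      _ = Nat.card G := h3
  have h5 : (cs x : ℝ) * ((Nat.card (Subgroup.center (G ⧸ N)) : ℕ) : ℝ) ≤ B * cs x := by
    refine le_trans ?_ hx
    exact_mod_cast h4
  have h6 : (0 : ℝ) < cs x := by exact_mod_cast cs_pos x
  rw [mul_comm] at h5
  exact le_of_mul_le_mul_right h5 h6

end basic

section centraliser

variable {G : Type u} [Group G] [Fintype G] {p : ℕ} [hp : Fact p.Prime]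

lemma sum_large (hG : IsPGroup p G) (a : ℝ) (ha : zz G = a * kk G) (e C : ℕ)
    (hC : p ^ e ≤ C) :
    (e : ℝ) * ∑ x ∈ univ.filter (fun x : G => C < cs x), w x ≤ a * kk G := by
  rw [← ha]
  refine le_trans ?_ (big_classes hG e)
  apply mul_le_mul_of_nonneg_left _ (Nat.cast_nonneg _)
  apply Finset.sum_le_sum_of_subset_of_nonneg
  · intro x hx
    rw [mem_filter] at hx ⊢
    exact ⟨mem_univ _, hC.trans hx.2.le⟩
  · exact fun x _ _ => (w_pos x).le

lemma cs_le_index (H : Subgroup G) {x : G} (hx : x ∈ Subgroup.centralizer (H : Set G)) :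
    cs x ≤ H.index := by
  rw [← index_CN_bot x]
  apply Nat.le_of_dvd (Nat.pos_of_ne_zero Subgroup.index_ne_zero_of_finite)
  apply Subgroup.index_dvd_of_le
  intro y hy
  rw [mem_CN, Subgroup.mem_bot]
  have h1 := Subgroup.mem_centralizer_iff.1 hx y hy
  rw [h1]; group

lemma sum_outside_centralizer (H : Subgroup G) (C : ℕ)
    (hH : ∀ x : G, cs x ≤ C → ∀ y ∈ H, y * x = x * y) :
    ∑ x ∈ univ.filter (fun x : G => x ∉ Subgroup.centralizer (H : Set G)), w x ≤
      ∑ x ∈ univ.filter (fun x : G => C < cs x), w x := by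
  apply Finset.sum_le_sum_of_subset_of_nonneg
  · intro x hx
    rw [mem_filter] at hx ⊢
    refine ⟨mem_univ _, ?_⟩
    by_contra h
    apply hx.2
    rw [Subgroup.mem_centralizer_iff]
    exact fun y hy => hH x (not_lt.1 h) y hy
  · exact fun x _ _ => (w_pos x).le

lemma sum_add_sum_not (K : Subgroup G) :
    ∑ x ∈ univ.filter (fun x : G => x ∈ K), w x + ∑ x ∈ univ.filter (fun x : G => x ∉ K), w x
      = kk G := by
  rw [kk_eq, Finset.sum_filter_add_sum_filter_not]

lemma card_centralizer_le (H : Subgroup G) :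
    ((Nat.card (Subgroup.centralizer (H : Set G)) : ℕ) : ℝ) ≤ (H.index : ℝ) * kk G := by
  have h0 : (0 : ℝ) < (H.index : ℝ) := by
    exact_mod_cast Nat.pos_of_ne_zero Subgroup.index_ne_zero_of_finite
  have h1 : ((Nat.card (Subgroup.centralizer (H : Set G)) : ℕ) : ℝ) * (H.index : ℝ)⁻¹ ≤
      ∑ x ∈ univ.filter (fun x : G => x ∈ Subgroup.centralizer (H : Set G)), w x := by
    rw [← card_filter_mem, ← nsmul_eq_mul, ← Finset.sum_const]
    apply Finset.sum_le_sum
    intro x hx
    rw [mem_filter] at hx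
    unfold w
    apply inv_anti₀
    · exact_mod_cast cs_pos x
    · exact_mod_cast cs_le_index H hx.2
  have h2 := sum_add_sum_not (Subgroup.centralizer (H : Set G))
  have h3 : 0 ≤ ∑ x ∈ univ.filter (fun x : G => x ∉ Subgroup.centralizer (H : Set G)), w x :=
    Finset.sum_nonneg fun x _ => (w_pos x).le
  have h4 : ((Nat.card (Subgroup.centralizer (H : Set G)) : ℕ) : ℝ) * (H.index : ℝ)⁻¹ ≤ kk G := by
    linarith
  rw [← div_eq_mul_inv, div_le_iff₀ h0] at h4
  linarith

lemma card_inf_ge (R H : Subgroup G) [H.Normal] :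
    Nat.card R ≤ H.index * Nat.card (R ⊓ H : Subgroup G) := by
  have h1 := Subgroup.relIndex_mul_relIndex ⊥ (R ⊓ H) R bot_le inf_le_left
  rw [Subgroup.relIndex_bot_left, Subgroup.relIndex_bot_left, inf_comm,
    Subgroup.inf_relIndex_right] at h1
  have h2 : H.relIndex R ≤ H.index := by
    apply Nat.le_of_dvd (Nat.pos_of_ne_zero Subgroup.index_ne_zero_of_finite)
    exact Subgroup.relIndex_dvd_index_of_normal H R
  rw [← h1, mul_comm]
  rw [inf_comm]
  exact Nat.mul_le_mul_right _ h2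

/-- The abelian normal subgroup. -/
lemma kk_le_card_A (hG : IsPGroup p G) (a : ℝ) (ha : zz G = a * kk G) (e C h : ℕ)
    (hC : p ^ e ≤ C) (hea : 2 * a ≤ e) (he : 0 < e) (H : Subgroup G) [H.Normal] (hh : H.index ≤ h)
    (hH : ∀ x : G, cs x ≤ C → ∀ y ∈ H, y * x = x * y) :
    kk G ≤ 2 * (h : ℝ) * ((Nat.card (Subgroup.centralizer (H : Set G) ⊓ H : Subgroup G) : ℕ) : ℝ) := by
  have hkpos : 0 < kk G := kk_pos
  have he0 : (0 : ℝ) < e := by exact_mod_cast he
  set S := ∑ x ∈ univ.filter (fun x : G => C < cs x), w x with hS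
  have h1 : (e : ℝ) * S ≤ a * kk G := sum_large hG a ha e C hC
  have h2 := sum_outside_centralizer H C hH
  rw [← hS] at h2
  have h3 := sum_add_sum_not (Subgroup.centralizer (H : Set G))
  have h4 : ∑ x ∈ univ.filter (fun x : G => x ∈ Subgroup.centralizer (H : Set G)), w x ≤
      ((Nat.card (Subgroup.centralizer (H : Set G)) : ℕ) : ℝ) := by
    rw [← card_filter_mem, Finset.card_eq_sum_ones, Nat.cast_sum]
    push_cast
    exact Finset.sum_le_sum fun x _ => w_le_one x
  have h5 : ((Nat.card (Subgroup.centralizer (H : Set G)) : ℕ) : ℝ) ≤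
      (h : ℝ) * ((Nat.card (Subgroup.centralizer (H : Set G) ⊓ H : Subgroup G) : ℕ) : ℝ) := by
    have := card_inf_ge (Subgroup.centralizer (H : Set G)) H
    exact_mod_cast this.trans (Nat.mul_le_mul_right _ hh)
  have h6 : S ≤ kk G / 2 := by
    have h7 : (e : ℝ) * S ≤ e * (kk G / 2) := by nlinarith
    exact le_of_mul_le_mul_left h7 he0
  linarith

end centraliser

end Pool.Agent.Lib.MP_f3d5fe_al
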