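import Pool.Agent.Lib.MP_f3d5fe_al.Lemmas

set_option autoImplicit false

namespace Pool.Agent.Lib.MP_f3d5fe_al

open Classical Finset

universe u

section setup

variable {G : Type u} [Group G] [Fintype G]

/-- The nonlinear irreducible characters. -/
noncomputable def NL (G : Type u) [Group G] [Fintype G] : Finset (G → ℂ) :=
  (IrrF G).filter fun χ => χ ∉ infl (commutator G)

/-- The number of classes on which `χ` vanishes. -/
noncomputable def zs (χ : G → ℂ) : ℝ := ∑ x ∈ univ.filter (fun x : G => χ x = 0), w x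

lemma zs_nonneg (χ : G → ℂ) : 0 ≤ zs χ := Finset.sum_nonneg fun x _ => (w_pos x).le

lemma mem_NL {χ : G → ℂ} : χ ∈ NL G ↔ χ ∈ Irr G ∧ χ ∉ infl (commutator G) := by
  rw [NL, mem_filter, mem_IrrF]

lemma zz_eq_NL : zz G = ∑ χ ∈ NL G, zs χ := by
  rw [zz_eq, NL, Finset.sum_filter]
  refine Finset.sum_congr rfl fun χ _ => ?_
  by_cases h : χ ∈ infl (commutator G)
  · rw [if_neg (not_not.2 h)]
    apply Finset.sum_eq_zero
    intro x hx
    rw [mem_filter] at hx
    exact absurd hx.2 (Lin_ne_zero h x)
  · rw [if_pos h]; rfl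

lemma kk_eq_add : kk G = (commutator G).index + (NL G).card := by
  rw [← card_IrrF, ← ncard_Lin, ← Finset.card_filter_add_card_filter_not (s := IrrF G)
    (fun χ => χ ∈ infl (commutator G))]
  push_cast
  congr 2
  rw [← Set.ncard_coe_finset]
  congr 1
  ext χ
  rw [Finset.mem_coe, mem_filter, mem_IrrF]
  exact ⟨fun h => h.2, fun h => ⟨infl_subset_Irr _ h, h⟩⟩

lemma zs_le {χ : G → ℂ} (hχ : χ ∈ Irr G) : zs χ ≤ kk G - 1 := by
  have h1 : w (1 : G) = 1 := by
    have h2 : cs (1 : G) = 1 := by
      unfold cs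
      rw [Set.ncard_eq_one]
      refine ⟨1, ?_⟩
      ext y
      simp only [Set.mem_ofPred_eq, Set.mem_singleton_iff]
      exact isConj_one_right
    unfold w
    rw [h2]; norm_num
  have h3 : zs χ + w (1 : G) ≤ kk G := by
    rw [kk_eq, zs, add_comm, ← Finset.sum_insert (by
      rw [mem_filter]
      exact fun h => Irr_one_ne_zero hχ h.2)]
    exact Finset.sum_le_sum_of_subset_of_nonneg (Finset.subset_univ _) fun x _ _ => (w_pos x).le
  linarith

/-- Nonlinear characters vanish at the elements whose class is a full coset of the derived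
subgroup. -/
lemma vanish_full {x : G} (hx : cs x = Nat.card (commutator G)) {χ : G → ℂ} (hχ : χ ∈ NL G) :
    χ x = 0 := by
  rw [mem_NL] at hχ
  obtain ⟨⟨n, ρ, hρ, rfl⟩, hχ'⟩ := hχ
  have hV := nontrivial_of_irreducible ρ hρ
  set P : (Fin n → ℂ) →ₗ[ℂ] (Fin n → ℂ) := ∑ c : commutator G, ρ c with hP
  have hmul : ∀ c : commutator G, ρ c * P = P := by
    intro c
    have h0 : ∑ d : commutator G, ρ ((c * d : commutator G) : G) = ∑ d : commutator G, ρ d :=
      Equiv.sum_comp (Equiv.mulLeft c) (fun d : commutator G => ρ (d : G))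
    rw [hP, Finset.mul_sum, ← h0]
    refine Finset.sum_congr rfl fun d _ => ?_
    rw [← map_mul]; rfl
  have hcomm : ∀ g, P ∘ₗ ρ g = ρ g ∘ₗ P := by
    intro g
    rw [← Module.End.mul_eq_comp, ← Module.End.mul_eq_comp, hP, Finset.sum_mul, Finset.mul_sum]
    have hn : (commutator G).Normal := inferInstance
    let e : commutator G ≃ commutator G :=
      { toFun := fun c => ⟨g⁻¹ * c * g, by simpa using hn.conj_mem c.1 c.2 g⁻¹⟩
        invFun := fun c => ⟨g * c * g⁻¹, hn.conj_mem c.1 c.2 g⟩
        left_inv := fun c => Subtype.ext (by simp; group)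
        right_inv := fun c => Subtype.ext (by simp; group) }
    rw [← Equiv.sum_comp e (fun c => ρ g * ρ c)]
    refine Finset.sum_congr rfl fun c _ => ?_
    rw [← map_mul, ← map_mul]
    congr 1
    show (c : G) * g = g * (g⁻¹ * c * g)
    group
  obtain ⟨s, hs⟩ := schur ρ hρ P hcomm
  have hs0 : s = 0 := by
    by_contra hne
    apply hχ'
    apply mem_infl_of_trivial _ ρ hρ
    intro c hc
    have h1 := hmul ⟨c, hc⟩
    rw [hs] at h1
    have h2 : s • (ρ c * LinearMap.id) = s • LinearMap.id := by
      rw [← mul_smul_comm]; exact h1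
    have h3 := smul_right_injective _ hne h2
    exact h3
  have hP0 : P = 0 := by rw [hs, hs0, zero_smul]
  -- all the elements of the coset are conjugate to `x`
  have hconj : ∀ c : commutator G, IsConj x (x * c) := by
    let f : {y : G | IsConj x y} → commutator G := fun y => ⟨x⁻¹ * y.1, by
      obtain ⟨g, hg⟩ := isConj_iff.1 y.2
      rw [← hg, commutator_eq_closure]
      apply Subgroup.subset_closure
      refine ⟨x⁻¹, g, ?_⟩
      rw [commutatorElement_def]; group⟩
    have hf : Function.Injective f := by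
      intro a b h
      have := congrArg Subtype.val h
      exact Subtype.ext (mul_left_cancel this)
    have hcard : Nat.card {y : G | IsConj x y} = Nat.card (commutator G) := by
      rw [← hx, cs, Nat.card_coe_set_eq]
    have hbij := (Nat.bijective_iff_injective_and_card f).2 ⟨hf, hcard⟩
    intro c
    obtain ⟨y, hy⟩ := hbij.2 c
    have h1 : x⁻¹ * y.1 = c := congrArg Subtype.val hy
    have h2 : x * c = y.1 := by rw [← h1]; group
    rw [h2]
    exact y.2
  have hsum : ∑ c : commutator G, ρ.character (x * c) = 0 := by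
    have h1 : ∀ c : commutator G, ρ.character (x * c) = LinearMap.trace ℂ _ (ρ x * ρ c) := by
      intro c
      unfold Representation.character
      rw [map_mul]
    simp_rw [h1]
    rw [← map_sum, ← Finset.mul_sum, ← hP, hP0, mul_zero, map_zero]
  have h2 : ∀ c : commutator G, ρ.character (x * c) = ρ.character x := fun c =>
    (Irr_isConj ⟨n, ρ, hρ, rfl⟩ (hconj c)).symm
  rw [Finset.sum_congr rfl (fun c _ => h2 c), Finset.sum_const, nsmul_eq_mul] at hsum
  rcases mul_eq_zero.1 hsum with h | h
  · exfalso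
    have h3 : 0 < (univ : Finset (commutator G)).card := Finset.card_pos.2 ⟨1, mem_univ _⟩
    exact h3.ne' (by exact_mod_cast h)
  · exact h

end setup

section caseB

variable {G : Type u} [Group G] [Fintype G] {p : ℕ} [hp : Fact p.Prime]

/-- The number of cosets of the derived subgroup which are a single class. -/
lemma full_cosets (hG : IsPGroup p G) :
    (((commutator G).index : ℝ) - (NL G).card ≤
      ∑ x ∈ univ.filter (fun x : G => cs x = Nat.card (commutator G)), w x) := by
  set d : ℝ := ((Nat.card (commutator G) : ℕ) : ℝ) with hd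
  have hdpos : 0 < d := by
    rw [hd]; exact_mod_cast Nat.card_pos
  set l : ℝ := (((commutator G).index : ℕ) : ℝ) with hl
  have hG' : l * d = Fintype.card G := by
    rw [hl, hd, ← Nat.card_eq_fintype_card]
    exact_mod_cast Subgroup.index_mul_card (commutator G)
  set S := univ.filter (fun x : G => cs x = Nat.card (commutator G)) with hS
  have h1 : ∑ x ∈ S, w x = S.card * d⁻¹ := by
    rw [Finset.sum_congr rfl (g := fun _ => d⁻¹), Finset.sum_const, nsmul_eq_mul]
    intro x hx
    rw [hS, mem_filter] at hx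
    unfold w
    rw [hx.2]
  have h2 : 2 * d⁻¹ * ((univ \ S).card : ℝ) ≤ ∑ x ∈ univ \ S, w x := by
    rw [mul_comm, ← nsmul_eq_mul, ← Finset.sum_const]
    apply Finset.sum_le_sum
    intro x hx
    rw [mem_sdiff, hS, mem_filter] at hx
    have h3 : cs x ≠ Nat.card (commutator G) := fun h => hx.2 ⟨mem_univ _, h⟩
    have h4 := two_mul_cs_le hG x h3
    have h5 : 2 * (cs x : ℝ) ≤ d := by rw [hd]; exact_mod_cast h4
    have h6 : (0 : ℝ) < cs x := by exact_mod_cast cs_pos x
    unfold w
    rw [← div_eq_mul_inv, inv_eq_one_div, div_le_div_iff₀ hdpos h6]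
    linarith
  have h3 : ((univ \ S).card : ℝ) = l * d - S.card := by
    rw [hG', ← Finset.card_univ, Finset.card_sdiff_of_subset (Finset.subset_univ S), Nat.cast_sub
      (Finset.card_le_card (Finset.subset_univ S))]
  have h4 : kk G = ∑ x ∈ S, w x + ∑ x ∈ univ \ S, w x := by
    rw [kk_eq, add_comm, Finset.sum_sdiff (Finset.subset_univ S)]
  have h5 := kk_eq_add (G := G)
  rw [h3] at h2
  have h6 : 2 * d⁻¹ * (l * d - S.card) = 2 * l - 2 * (S.card * d⁻¹) := by
    field_simp
  rw [h6, ← h1] at h2
  rw [h5] at h4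
  linarith

theorem caseB (hG : IsPGroup p G) (a : ℝ) (ha : zz G = a * kk G)
    (ht : 1 ≤ (NL G).card) (hB : 2 * ((NL G).card : ℝ) ≤ (commutator G).index) :
    a < (NL G).card ∧ ((NL G).card : ℝ) ≤ 3 * a ∧
      ((NL G).card - a) * kk G ≤ 2 * ((NL G).card : ℝ) ^ 2 := by
  set t : ℝ := (((NL G).card : ℕ) : ℝ) with htd
  set l : ℝ := (((commutator G).index : ℕ) : ℝ) with hl
  have ht1 : 1 ≤ t := by rw [htd]; exact_mod_cast ht
  have hk : kk G = l + t := kk_eq_add
  have hkpos : 0 < kk G := kk_pos
  have hfull := full_cosets hG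
  rw [← htd, ← hl] at hfull
  have hlow : ∀ χ ∈ NL G, l - t ≤ zs χ := by
    intro χ hχ
    refine hfull.trans ?_
    apply Finset.sum_le_sum_of_subset_of_nonneg
    · intro x hx
      rw [mem_filter] at hx ⊢
      exact ⟨mem_univ _, vanish_full hx.2 hχ⟩
    · exact fun x _ _ => (w_pos x).le
  have h1 : t * (l - t) ≤ zz G := by
    rw [zz_eq_NL, htd, ← nsmul_eq_mul, ← Finset.sum_const]
    exact Finset.sum_le_sum hlow
  have h2 : zz G ≤ t * (kk G - 1) := by
    rw [zz_eq_NL, htd, ← nsmul_eq_mul, ← Finset.sum_const]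
    exact Finset.sum_le_sum fun χ hχ => zs_le (mem_NL.1 hχ).1
  rw [ha] at h1 h2
  refine ⟨?_, ?_, ?_⟩
  · by_contra hcon
    have h3 : t * kk G ≤ a * kk G := mul_le_mul_of_nonneg_right (not_lt.1 hcon) hkpos.le
    nlinarith
  · have h3 : t * (kk G / 3) ≤ a * kk G := by
      refine le_trans ?_ h1
      apply mul_le_mul_of_nonneg_left _ (by linarith)
      rw [hk]; linarith
    have h4 : t / 3 * kk G ≤ a * kk G := by linarith
    have h5 := le_of_mul_le_mul_right h4 hkpos
    linarith
  · have h3 : t * (kk G - 2 * t) ≤ a * kk G := by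
      refine le_trans (le_of_eq ?_) h1
      rw [hk]; ring
    nlinarith

end caseB

end Pool.Agent.Lib.MP_f3d5fe_al
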