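import Pool.Agent.Lib.MP_f3d5fe_al.Weights

set_option autoImplicit false

namespace Pool.Agent.Lib.MP_f3d5fe_al

open Classical Finset

universe u

section chain

variable {G : Type u} [Group G] [Finite G] {p : ℕ} [hp : Fact p.Prime]

/-- A chief chain of a `p`-group from the trivial subgroup up to `B`. -/
structure IsChain' (p r : ℕ) (N : ℕ → Subgroup G) (B : Subgroup G) : Prop where
  zero : N 0 = ⊥
  last : N r = B
  normal : ∀ i, (N i).Normal
  le : ∀ i < r, N i ≤ N (i + 1)
  card : ∀ i ≤ r, Nat.card (N i) = p ^ i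
  comm : ∀ i < r, ∀ x ∈ N (i + 1), ∀ g, x⁻¹ * (g * x * g⁻¹) ∈ N i

lemma commutator_ne (hG : IsPGroup p G) (B : Subgroup G) (hB : B ≠ ⊥) : ⁅B, (⊤ : Subgroup G)⁆ ≠ B := by
  intro h
  have hnil : Group.IsNilpotent G := hG.isNilpotent
  obtain ⟨n, hn⟩ := Subgroup.nilpotent_iff_lowerCentralSeries.1 hnil
  have h1 : ∀ n, B ≤ (⊤ : Subgroup G).lowerCentralSeries n := by
    intro n
    induction n with
    | zero => exact le_top
    | succ n ih =>
      rw [Subgroup.lowerCentralSeries_succ, ← h]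
      exact Subgroup.commutator_mono ih le_rfl
  have h2 := h1 n
  rw [hn] at h2
  exact hB (le_bot_iff.1 h2)

lemma chain_step (hG : IsPGroup p G) (B : Subgroup G) [hBn : B.Normal] (r : ℕ)
    (hB : Nat.card B = p ^ (r + 1)) :
    ∃ B' : Subgroup G, B'.Normal ∧ B' ≤ B ∧ Nat.card B' = p ^ r ∧
      ∀ x ∈ B, ∀ g, x⁻¹ * (g * x * g⁻¹) ∈ B' := by
  have hpr := hp.out
  set K : Subgroup G := ⁅B, (⊤ : Subgroup G)⁆ with hK
  have hKB : K ≤ B := Subgroup.commutator_le_left B ⊤
  have hB1 : B ≠ ⊥ := by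
    rintro rfl
    rw [Subgroup.card_bot] at hB
    have : 1 < p ^ (r + 1) := Nat.one_lt_pow (Nat.succ_ne_zero r) hpr.one_lt
    omega
  have hKne : K ≠ B := commutator_ne hG B hB1
  obtain ⟨j, hj, hKj⟩ : ∃ j ≤ r + 1, Nat.card K = p ^ j := by
    have : Nat.card K ∣ p ^ (r + 1) := by rw [← hB]; exact Subgroup.card_dvd_of_le hKB
    exact (Nat.dvd_prime_pow hpr).1 this
  have hjr : j ≤ r := by
    rcases Nat.lt_or_ge j (r + 1) with h | h
    · omega
    · exfalso
      have hj' : j = r + 1 := le_antisymm hj h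
      rw [hj', ← hB] at hKj
      exact hKne (Subgroup.eq_of_le_of_card_ge hKB hKj.ge)
  have hK' : Nat.card (K.subgroupOf B) = p ^ j := by
    rw [← hKj]
    exact Nat.card_congr (Subgroup.subgroupOfEquivOfLe hKB).toEquiv
  obtain ⟨M, hM, hKM⟩ := Sylow.exists_subgroup_card_pow_prime_le p
    (show p ^ r ∣ Nat.card B by rw [hB]; exact pow_dvd_pow p (Nat.le_succ r)) (K.subgroupOf B) hK' hjr
  have hcomm : ∀ x ∈ B, ∀ g, x⁻¹ * (g * x * g⁻¹) ∈ M.map B.subtype := by
    intro x hx g
    have h1 : x⁻¹ * (g * x * g⁻¹) ∈ K := by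
      have := Subgroup.commutator_mem_commutator (B.inv_mem hx) (Subgroup.mem_top g)
      rw [commutatorElement_def, inv_inv] at this
      simpa [mul_assoc] using this
    have h2 : (⟨x⁻¹ * (g * x * g⁻¹), hKB h1⟩ : B) ∈ M := hKM (Subgroup.mem_subgroupOf.2 h1)
    exact ⟨_, h2, rfl⟩
  have hle : M.map B.subtype ≤ B := by
    rintro _ ⟨y, -, rfl⟩
    exact y.2
  refine ⟨M.map B.subtype, ⟨fun x hx g => ?_⟩, hle, ?_, hcomm⟩
  · have h1 := hcomm x (hle hx) g
    have h2 := (M.map B.subtype).mul_mem hx h1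
    rwa [mul_inv_cancel_left] at h2
  · rw [Subgroup.card_map_of_injective (Subgroup.subtype_injective B), hM]

lemma exists_chain (hG : IsPGroup p G) (r : ℕ) : ∀ (B : Subgroup G) [B.Normal],
    Nat.card B = p ^ r → ∃ N : ℕ → Subgroup G, IsChain' p r N B := by
  induction r with
  | zero =>
    intro B _ hB
    have : B = ⊥ := by
      rw [pow_zero] at hB
      exact Subgroup.card_eq_one.1 hB
    subst this
    exact ⟨fun _ => ⊥, ⟨rfl, rfl, fun _ => inferInstance, fun i hi => absurd hi (Nat.not_lt_zero i),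
      fun i hi => by
        rw [Nat.le_zero.1 hi]; simp, fun i hi => absurd hi (Nat.not_lt_zero i)⟩⟩
  | succ r ih =>
    intro B hBn hB
    obtain ⟨B', hB'n, hB'B, hB'c, hcomm⟩ := chain_step hG B r hB
    obtain ⟨N, hN⟩ := ih B' hB'c
    refine ⟨fun i => if i ≤ r then N i else B, ⟨?_, ?_, ?_, ?_, ?_, ?_⟩⟩
    · simp [hN.zero]
    · simp
    · intro i
      by_cases h : i ≤ r
      · simp only [h, if_true]; exact hN.normal i
      · simp only [h, if_false]; exact hBn
    · intro i hi
      by_cases h : i + 1 ≤ r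
      · simp only [h, Nat.le_of_succ_le h, if_true]; exact hN.le i h
      · have hir : i = r := by omega
        subst hir
        simp only [le_refl, if_true, h, if_false, hN.last]; exact hB'B
    · intro i hi
      by_cases h : i ≤ r
      · simp only [h, if_true]; exact hN.card i h
      · have hir : i = r + 1 := by omega
        subst hir
        simp only [h, if_false]; exact hB
    · intro i hi
      by_cases h : i + 1 ≤ r
      · simp only [h, Nat.le_of_succ_le h, if_true]; exact hN.comm i h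
      · have hir : i = r := by omega
        subst hir
        simp only [le_refl, if_true, h, if_false, hN.last]; exact hcomm

/-- The preimage of the centraliser of the image of `x` in `G ⧸ N`. -/
def CN (N : Subgroup G) (hN : N.Normal) (x : G) : Subgroup G where
  carrier := {g | x⁻¹ * (g * x * g⁻¹) ∈ N}
  one_mem' := by simp [N.one_mem]
  mul_mem' := by
    intro g h hg hh
    simp only [Set.mem_ofPred_eq] at hg hh ⊢
    have h1 := hN.conj_mem _ hh (x⁻¹ * g * x)
    have h2 := N.mul_mem hg (hN.conj_mem _ hh g)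
    have h3 : x⁻¹ * (g * h * x * (g * h)⁻¹) =
        x⁻¹ * (g * x * g⁻¹) * (g * (x⁻¹ * (h * x * h⁻¹)) * g⁻¹) := by group
    rw [h3]; exact h2
  inv_mem' := by
    intro g hg
    simp only [Set.mem_ofPred_eq] at hg ⊢
    have h1 := hN.conj_mem _ (N.inv_mem hg) g⁻¹
    have h3 : x⁻¹ * (g⁻¹ * x * g⁻¹⁻¹) = g⁻¹ * (x⁻¹ * (g * x * g⁻¹))⁻¹ * g⁻¹⁻¹ := by group
    rw [h3]; exact h1

omit [Finite G] in
lemma mem_CN {N : Subgroup G} {hN : N.Normal} {x g : G} :
    g ∈ CN N hN x ↔ x⁻¹ * (g * x * g⁻¹) ∈ N := Iff.rfl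

omit [Finite G] in
lemma CN_mono {N N' : Subgroup G} (hN : N.Normal) (hN' : N'.Normal) (h : N ≤ N') (x : G) :
    CN N hN x ≤ CN N' hN' x := fun _ hg => h hg

lemma relIndex_CN_le {N N' : Subgroup G} (hN : N.Normal) (hN' : N'.Normal) (x : G) :
    (CN N hN x).relIndex (CN N' hN' x) ≤ N.relIndex N' := by
  unfold Subgroup.relIndex Subgroup.index
  let f : (CN N' hN' x) ⧸ (CN N hN x).subgroupOf (CN N' hN' x) → N' ⧸ N.subgroupOf N' :=
    Quotient.lift (fun g => (QuotientGroup.mk ⟨x⁻¹ * (g.1 * x * g.1⁻¹), g.2⟩ : N' ⧸ N.subgroupOf N'))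
    (by
      intro g h hgh
      rw [QuotientGroup.eq, Subgroup.mem_subgroupOf]
      have h1 : g⁻¹ * h ∈ (CN N hN x).subgroupOf (CN N' hN' x) := by
        rw [← QuotientGroup.leftRel_apply]; exact hgh
      rw [Subgroup.mem_subgroupOf, mem_CN] at h1
      have h2 := hN.conj_mem _ h1 g.1
      have h3 : g.1 * (x⁻¹ * ((g⁻¹ * h : CN N' hN' x).1 * x * (g⁻¹ * h : CN N' hN' x).1⁻¹)) * g.1⁻¹ =
          (x⁻¹ * (g.1 * x * g.1⁻¹))⁻¹ * (x⁻¹ * (h.1 * x * h.1⁻¹)) := by
        push_cast
        group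
      rw [h3] at h2
      exact h2)
  have hf : Function.Injective f := by
    intro a b hab
    obtain ⟨g, rfl⟩ := QuotientGroup.mk_surjective a
    obtain ⟨h, rfl⟩ := QuotientGroup.mk_surjective b
    have h1 : (QuotientGroup.mk ⟨x⁻¹ * (g.1 * x * g.1⁻¹), g.2⟩ : N' ⧸ N.subgroupOf N') =
      QuotientGroup.mk ⟨x⁻¹ * (h.1 * x * h.1⁻¹), h.2⟩ := hab
    rw [QuotientGroup.eq, Subgroup.mem_subgroupOf] at h1 ⊢
    rw [mem_CN]
    have h2 := hN.conj_mem _ h1 g.1⁻¹
    have h3 : g.1⁻¹ * ((x⁻¹ * (g.1 * x * g.1⁻¹))⁻¹ * (x⁻¹ * (h.1 * x * h.1⁻¹))) * g.1⁻¹⁻¹ =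
        x⁻¹ * ((g⁻¹ * h : CN N' hN' x).1 * x * (g⁻¹ * h : CN N' hN' x).1⁻¹) := by
      push_cast
      group
    rw [← h3]
    exact h2
  exact Nat.card_le_card_of_injective f hf

omit [Finite G] in
lemma index_CN_bot (x : G) : (CN ⊥ inferInstance x).index = cs x := by
  unfold cs Subgroup.index
  rw [← Nat.card_coe_set_eq]
  refine Nat.card_congr (Equiv.ofBijective (Quotient.lift (fun g => (⟨g * x * g⁻¹,
    isConj_iff.2 ⟨g, rfl⟩⟩ : {y : G | IsConj x y})) ?_) ⟨?_, ?_⟩)
  · intro g h hgh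
    have h1 : g⁻¹ * h ∈ CN ⊥ inferInstance x := by
      rw [← QuotientGroup.leftRel_apply]; exact hgh
    rw [mem_CN, Subgroup.mem_bot] at h1
    apply Subtype.ext
    have h2 : h * x * h⁻¹ = g * x * (x⁻¹ * (g⁻¹ * h * x * (g⁻¹ * h)⁻¹)) * g⁻¹ := by group
    simp only [h2, h1, mul_one]
  · intro a b hab
    obtain ⟨g, rfl⟩ := QuotientGroup.mk_surjective a
    obtain ⟨h, rfl⟩ := QuotientGroup.mk_surjective b
    have h1 : g * x * g⁻¹ = h * x * h⁻¹ := congrArg Subtype.val hab
    rw [QuotientGroup.eq, mem_CN, Subgroup.mem_bot]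
    have h2 : x⁻¹ * (g⁻¹ * h * x * (g⁻¹ * h)⁻¹) = x⁻¹ * (g⁻¹ * (h * x * h⁻¹) * g) := by group
    rw [h2, ← h1]; group
  · rintro ⟨y, hy⟩
    obtain ⟨g, hg⟩ := isConj_iff.1 hy
    exact ⟨QuotientGroup.mk g, Subtype.ext hg⟩

/-- The levels of a chain at which the class of `x` grows. -/
noncomputable def levels (r : ℕ) (N : ℕ → Subgroup G) (x : G) : Finset ℕ :=
  (Finset.range r).filter fun i => ∃ g : G, x⁻¹ * (g * x * g⁻¹) ∈ N (i + 1) ∧
    x⁻¹ * (g * x * g⁻¹) ∉ N i

omit [Finite G] in
lemma mem_levels {r : ℕ} {N : ℕ → Subgroup G} {x : G} {i : ℕ} :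
    i ∈ levels r N x ↔ i < r ∧ ∃ g : G, x⁻¹ * (g * x * g⁻¹) ∈ N (i + 1) ∧
      x⁻¹ * (g * x * g⁻¹) ∉ N i := by
  unfold levels
  rw [mem_filter, mem_range]

lemma cs_le_pow_levels {r : ℕ} {N : ℕ → Subgroup G} (hN : IsChain' p r N ⊤) (x : G) :
    cs x ≤ p ^ (levels r N x).card := by
  have hpr := hp.out
  have h1 : ∀ j ≤ r, (CN (N 0) (hN.normal 0) x).index ≤
      p ^ ((levels r N x).filter (fun i => i < j)).card * (CN (N j) (hN.normal j) x).index := by
    intro j
    induction j with
    | zero => intro _; simp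
    | succ j ih =>
      intro hj
      have ih' := ih (Nat.le_of_succ_le hj)
      have hle : N j ≤ N (j + 1) := hN.le j hj
      have hmono := CN_mono (hN.normal j) (hN.normal (j + 1)) hle x
      have hidx := Subgroup.relIndex_mul_index hmono
      by_cases hmem : j ∈ levels r N x
      · have hset : (levels r N x).filter (fun i => i < j + 1) =
            insert j ((levels r N x).filter (fun i => i < j)) := by
          ext i
          simp only [mem_filter, mem_insert]
          constructor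
          · rintro ⟨h1, h2⟩
            rcases Nat.lt_succ_iff_lt_or_eq.1 h2 with h3 | h3
            · exact Or.inr ⟨h1, h3⟩
            · exact Or.inl h3
          · rintro (rfl | ⟨h1, h2⟩)
            · exact ⟨hmem, Nat.lt_succ_self _⟩
            · exact ⟨h1, Nat.lt_succ_of_lt h2⟩
        rw [hset, Finset.card_insert_of_notMem (by simp), pow_succ]
        have hrel : (CN (N j) (hN.normal j) x).relIndex (CN (N (j + 1)) (hN.normal (j + 1)) x) ≤ p := by
          refine (relIndex_CN_le (hN.normal j) (hN.normal (j + 1)) x).trans (le_of_eq ?_)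
          have h3 := Subgroup.relIndex_mul_relIndex ⊥ (N j) (N (j + 1)) bot_le hle
          rw [Subgroup.relIndex_bot_left, Subgroup.relIndex_bot_left,
            hN.card j (Nat.le_of_succ_le hj), hN.card (j + 1) hj, pow_succ] at h3
          exact Nat.eq_of_mul_eq_mul_left (pow_pos hpr.pos j) h3
        calc (CN (N 0) (hN.normal 0) x).index
            ≤ p ^ ((levels r N x).filter (fun i => i < j)).card * (CN (N j) (hN.normal j) x).index := ih'
          _ = p ^ ((levels r N x).filter (fun i => i < j)).card *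
              ((CN (N j) (hN.normal j) x).relIndex (CN (N (j + 1)) (hN.normal (j + 1)) x) *
                (CN (N (j + 1)) (hN.normal (j + 1)) x).index) := by rw [hidx]
          _ ≤ p ^ ((levels r N x).filter (fun i => i < j)).card *
              (p * (CN (N (j + 1)) (hN.normal (j + 1)) x).index) :=
              Nat.mul_le_mul_left _ (Nat.mul_le_mul_right _ hrel)
          _ = _ := by ring
      · have hset : (levels r N x).filter (fun i => i < j + 1) =
            (levels r N x).filter (fun i => i < j) := by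
          ext i
          simp only [mem_filter]
          constructor
          · rintro ⟨h1, h2⟩
            rcases Nat.lt_succ_iff_lt_or_eq.1 h2 with h3 | h3
            · exact ⟨h1, h3⟩
            · subst h3; exact absurd h1 hmem
          · rintro ⟨h1, h2⟩
            exact ⟨h1, Nat.lt_succ_of_lt h2⟩
        rw [hset]
        have heq : CN (N (j + 1)) (hN.normal (j + 1)) x = CN (N j) (hN.normal j) x := by
          apply le_antisymm _ hmono
          intro g hg
          rw [mem_CN] at hg ⊢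
          by_contra hcon
          apply hmem
          unfold levels
          rw [mem_filter, mem_range]
          exact ⟨hj, g, hg, hcon⟩
        rw [heq]
        exact ih'
  have h2 := h1 r le_rfl
  have h3 : (CN (N r) (hN.normal r) x).index = 1 := by
    have : CN (N r) (hN.normal r) x = ⊤ := by
      ext g
      rw [mem_CN, hN.last]
      simp
    rw [this, Subgroup.index_top]
  have h4 : (CN (N 0) (hN.normal 0) x).index = cs x := by
    rw [← index_CN_bot x]
    congr 1
    ext g
    rw [mem_CN, mem_CN, hN.zero]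
  rw [h3, mul_one, h4] at h2
  refine h2.trans (Nat.pow_le_pow_right hpr.pos (Finset.card_le_card (Finset.filter_subset _ _)))

end chain

end Pool.Agent.Lib.MP_f3d5fe_al
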