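import Pool.Agent.Lib.MP_f3d5fe_al.CaseA

set_option autoImplicit false

namespace Pool.Agent.Lib.MP_f3d5fe_al

open Classical Finset

universe u

section pows

variable (p : ℕ) [hp : Fact p.Prime]

lemma sum_pow_le_two (m : ℕ) : ∑ j ∈ range (m + 1), (p : ℝ) ^ j ≤ 2 * (p : ℝ) ^ m := by
  have h2 : (2 : ℝ) ≤ p := by exact_mod_cast hp.out.two_le
  induction m with
  | zero => norm_num
  | succ m ih =>
    rw [Finset.sum_range_succ, pow_succ]
    have h3 : (0 : ℝ) < (p : ℝ) ^ m := by positivity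
    nlinarith

lemma sum_pow_le (J : ℕ) : ∑ j ∈ range J, (p : ℝ) ^ j ≤ (p : ℝ) ^ J := by
  have h2 : (2 : ℝ) ≤ p := by exact_mod_cast hp.out.two_le
  induction J with
  | zero => norm_num
  | succ m ih =>
    rw [Finset.sum_range_succ, pow_succ]
    have h3 : (0 : ℝ) < (p : ℝ) ^ m := by positivity
    nlinarith

end pows

section chain

variable {G : Type u} [Group G] [Fintype G] {p : ℕ} [hp : Fact p.Prime]

lemma zs_layer {r : ℕ} {N : ℕ → Subgroup G} {A : Subgroup G} [A.Normal]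
    (hN : IsChain' p r N A) (h : ℕ) (hA : ∀ x ∈ A, cs x ≤ h) {j : ℕ} (hj : j ≤ r) [(N j).Normal]
    {χ : G → ℂ} (hχ : χ ∈ infl (N j)) (hχ' : χ ∉ infl ⁅A, (⊤ : Subgroup G)⁆) :
    (p : ℝ) ^ j ≤ h * zs χ := by
  obtain ⟨i, hji, hir, hv⟩ := layer_vanish hN hj hχ hχ'
  have h2 : (2 : ℝ) ≤ p := by exact_mod_cast hp.out.two_le
  have hpos : 0 < h := lt_of_lt_of_le (cs_pos (1 : G)) (hA 1 A.one_mem)
  have hpos' : (0 : ℝ) < h := by exact_mod_cast hpos
  have h1 : ∑ x ∈ univ.filter (fun x : G => x ∈ N (i + 1) ∧ x ∉ N i), w x ≤ zs χ := by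
    apply Finset.sum_le_sum_of_subset_of_nonneg
    · intro x hx
      rw [mem_filter] at hx ⊢
      exact ⟨mem_univ _, hv x hx.2.1 hx.2.2⟩
    · exact fun x _ _ => (w_pos x).le
  have h3 : ((univ.filter (fun x : G => x ∈ N (i + 1) ∧ x ∉ N i)).card : ℝ) * (h : ℝ)⁻¹ ≤
      ∑ x ∈ univ.filter (fun x : G => x ∈ N (i + 1) ∧ x ∉ N i), w x := by
    rw [← nsmul_eq_mul, ← Finset.sum_const]
    apply Finset.sum_le_sum
    intro x hx
    rw [mem_filter] at hx
    unfold w
    apply inv_anti₀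
    · exact_mod_cast cs_pos x
    · have h5 : N (i + 1) ≤ A := by
        have := hN.mono (i := i + 1) (j := r) hir le_rfl
        rwa [hN.last] at this
      exact_mod_cast hA x (h5 hx.2.1)
  have h4 : (univ.filter (fun x : G => x ∈ N (i + 1) ∧ x ∉ N i)).card + p ^ i = p ^ (i + 1) := by
    rw [← hN.card i hir.le, ← hN.card (i + 1) hir, ← card_filter_mem, ← card_filter_mem]
    rw [← Finset.card_filter_add_card_filter_not (s := univ.filter (fun x : G => x ∈ N (i + 1)))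
      (fun x => x ∈ N i), Finset.filter_filter, Finset.filter_filter, add_comm]
    congr 2
    ext x
    rw [mem_filter, mem_filter]
    exact ⟨fun h => ⟨h.1, hN.le i hir h.2, h.2⟩, fun h => ⟨h.1, h.2.2⟩⟩
  have h4' : ((univ.filter (fun x : G => x ∈ N (i + 1) ∧ x ∉ N i)).card : ℝ) + (p : ℝ) ^ i =
      (p : ℝ) ^ (i + 1) := by exact_mod_cast h4
  rw [pow_succ] at h4'
  have h6 : (p : ℝ) ^ j ≤ (p : ℝ) ^ i := pow_le_pow_right₀ (by linarith) hji
  have h7 : (0 : ℝ) < (p : ℝ) ^ i := by positivity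
  have h8 : (p : ℝ) ^ j ≤ ((univ.filter (fun x : G => x ∈ N (i + 1) ∧ x ∉ N i)).card : ℝ) := by
    nlinarith
  have h9 : (p : ℝ) ^ j * (h : ℝ)⁻¹ ≤ zs χ :=
    ((mul_le_mul_of_nonneg_right h8 (by positivity)).trans h3).trans h1
  rw [← div_eq_mul_inv, div_le_iff₀ hpos'] at h9
  linarith

omit [Fintype G] in
lemma kk_quot_eq [Finite G] (N : Subgroup G) [N.Normal] :
    kk (G ⧸ N) = (((infl N).ncard : ℕ) : ℝ) := by
  rw [ncard_infl]; rfl

lemma card_filter_infl (N : Subgroup G) [N.Normal] :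
    ((IrrF G).filter (fun χ => χ ∈ infl N)).card = (infl N).ncard := by
  rw [← Set.ncard_coe_finset]
  congr 1
  ext χ
  rw [Finset.mem_coe, mem_filter, mem_IrrF]
  exact ⟨fun h => h.2, fun h => ⟨infl_subset_Irr _ h, h⟩⟩

lemma chain_bound {r : ℕ} {N : ℕ → Subgroup G} {A : Subgroup G} [A.Normal]
    (hN : IsChain' p r N A) (h : ℕ) (hA : ∀ x ∈ A, cs x ≤ h) (J : ℕ) (hJ : J ≤ r) :
    (J : ℝ) * kk G - kk (G ⧸ ⁅A, (⊤ : Subgroup G)⁆) * (p : ℝ) ^ J ≤ 2 * h * zz G := by
  have := hN.normal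
  set M := ⁅A, (⊤ : Subgroup G)⁆ with hM
  have h1 : ∑ χ ∈ (IrrF G).filter (fun χ => χ ∉ infl M), 2 * (h : ℝ) * zs χ ≤ 2 * h * zz G := by
    rw [← Finset.mul_sum]
    apply mul_le_mul_of_nonneg_left _ (by positivity)
    rw [zz_eq]
    apply Finset.sum_le_sum_of_subset_of_nonneg (Finset.filter_subset _ _)
    exact fun χ _ _ => zs_nonneg χ
  refine le_trans ?_ h1
  have h2 : ∀ χ ∈ (IrrF G).filter (fun χ => χ ∉ infl M),
      ∑ j ∈ (range J).filter (fun j => χ ∈ infl (N j)), (p : ℝ) ^ j ≤ 2 * (h : ℝ) * zs χ := by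
    intro χ hχ
    rw [mem_filter] at hχ
    rcases ((range J).filter (fun j => χ ∈ infl (N j))).eq_empty_or_nonempty with he | hne
    · rw [he, Finset.sum_empty]
      exact mul_nonneg (by positivity) (zs_nonneg χ)
    · set m := ((range J).filter (fun j => χ ∈ infl (N j))).max' hne with hm
      have hmm := Finset.max'_mem _ hne
      rw [← hm, mem_filter, mem_range] at hmm
      have h3 : (range J).filter (fun j => χ ∈ infl (N j)) ⊆ range (m + 1) := by
        intro j hj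
        rw [mem_range, Nat.lt_succ_iff]
        exact Finset.le_max' _ j hj
      calc ∑ j ∈ (range J).filter (fun j => χ ∈ infl (N j)), (p : ℝ) ^ j
          ≤ ∑ j ∈ range (m + 1), (p : ℝ) ^ j :=
            Finset.sum_le_sum_of_subset_of_nonneg h3 fun j _ _ => by positivity
        _ ≤ 2 * (p : ℝ) ^ m := sum_pow_le_two p m
        _ ≤ 2 * (h * zs χ) := by
            apply mul_le_mul_of_nonneg_left _ (by norm_num)
            exact zs_layer hN h hA (hmm.1.le.trans hJ) hmm.2 hχ.2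
        _ = 2 * (h : ℝ) * zs χ := by ring
  refine le_trans ?_ (Finset.sum_le_sum h2)
  have h3 : ∑ χ ∈ (IrrF G).filter (fun χ => χ ∉ infl M),
      ∑ j ∈ (range J).filter (fun j => χ ∈ infl (N j)), (p : ℝ) ^ j =
      ∑ j ∈ range J, (p : ℝ) ^ j *
        (((IrrF G).filter (fun χ => χ ∉ infl M)).filter (fun χ => χ ∈ infl (N j))).card := by
    simp_rw [Finset.sum_filter (s := range J)]
    rw [Finset.sum_comm]
    refine Finset.sum_congr rfl fun j _ => ?_
    rw [← Finset.sum_filter, Finset.sum_const, nsmul_eq_mul, mul_comm]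
  rw [h3]
  have h4 : ∀ j ∈ range J, kk G - kk (G ⧸ M) * (p : ℝ) ^ j ≤ (p : ℝ) ^ j *
        (((IrrF G).filter (fun χ => χ ∉ infl M)).filter (fun χ => χ ∈ infl (N j))).card := by
    intro j hj
    rw [mem_range] at hj
    have h5 := kk_le_card_mul (N j)
    rw [hN.card j (hj.le.trans hJ)] at h5
    push_cast at h5
    have h6 : (infl (N j)).ncard ≤ (((IrrF G).filter (fun χ => χ ∉ infl M)).filter
        (fun χ => χ ∈ infl (N j))).card + (infl M).ncard := by
      rw [← card_filter_infl, ← card_filter_infl (N := M)]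
      have h7 : (IrrF G).filter (fun χ => χ ∈ infl (N j)) ⊆
          (((IrrF G).filter (fun χ => χ ∉ infl M)).filter (fun χ => χ ∈ infl (N j))) ∪
          (IrrF G).filter (fun χ => χ ∈ infl M) := by
        intro χ hχ
        rw [mem_filter] at hχ
        rw [mem_union, mem_filter, mem_filter, mem_filter]
        by_cases h8 : χ ∈ infl M
        · exact Or.inr ⟨hχ.1, h8⟩
        · exact Or.inl ⟨⟨hχ.1, h8⟩, hχ.2⟩
      exact (Finset.card_le_card h7).trans (Finset.card_union_le _ _)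
    have h6' : kk (G ⧸ N j) ≤ (((IrrF G).filter (fun χ => χ ∉ infl M)).filter
        (fun χ => χ ∈ infl (N j))).card + kk (G ⧸ M) := by
      rw [kk_quot_eq, kk_quot_eq]
      exact_mod_cast h6
    have h9 : (0 : ℝ) < (p : ℝ) ^ j := by
      have : (0 : ℝ) < p := by exact_mod_cast hp.out.pos
      positivity
    nlinarith [mul_le_mul_of_nonneg_left h6' h9.le]
  refine le_trans ?_ (Finset.sum_le_sum h4)
  rw [Finset.sum_sub_distrib, Finset.sum_const, card_range, nsmul_eq_mul, ← Finset.mul_sum]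
  have h10 := mul_le_mul_of_nonneg_left (sum_pow_le p J) (kk_pos (G := G ⧸ M)).le
  linarith

end chain

section bad

variable {G : Type u} [Group G] [Fintype G]

/-- Passing to a quotient with a larger kernel decreases class sizes. -/
lemma cs_mk_anti (M A : Subgroup G) [hM : M.Normal] [hA : A.Normal] (h : M ≤ A) (x : G) :
    cs (x : G ⧸ A) ≤ cs (x : G ⧸ M) := by
  rw [cs_mk_eq M hM, cs_mk_eq A hA]
  apply Nat.le_of_dvd (Nat.pos_of_ne_zero Subgroup.index_ne_zero_of_finite)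
  exact Subgroup.index_dvd_of_le (CN_mono hM hA h x)

lemma card_mul_kk_quot (M : Subgroup G) [M.Normal] :
    ((Nat.card M : ℕ) : ℝ) * kk (G ⧸ M) = ∑ x : G, w (x : G ⧸ M) := by
  have h := sum_quotient M (fun _ => True) w
  simp only [Finset.filter_true] at h
  rw [kk_eq, h]

lemma bad_bound (A : Subgroup G) [A.Normal] {B : ℝ}
    (hB : ((Nat.card (Subgroup.center (G ⧸ ⁅A, (⊤ : Subgroup G)⁆)) : ℕ) : ℝ) ≤ B) :
    kk (G ⧸ ⁅A, (⊤ : Subgroup G)⁆) ≤ B * kk (G ⧸ A) := by
  set M := ⁅A, (⊤ : Subgroup G)⁆ with hM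
  have hMA : M ≤ A := Subgroup.commutator_le_left A ⊤
  have h1 : ((Nat.card M : ℕ) : ℝ) * kk (G ⧸ M) ≤ ((Nat.card A : ℕ) : ℝ) * kk (G ⧸ A) := by
    rw [card_mul_kk_quot, card_mul_kk_quot]
    apply Finset.sum_le_sum
    intro x _
    unfold w
    apply inv_anti₀
    · exact_mod_cast cs_pos (x : G ⧸ A)
    · exact_mod_cast cs_mk_anti M A hMA x
  have h2 : Nat.card A ≤ Nat.card M * Nat.card (Subgroup.center (G ⧸ M)) := by
    have h3 : (A : Set G) ⊆ (fun y : G => (y : G ⧸ M)) ⁻¹' (Subgroup.center (G ⧸ M) : Set (G ⧸ M)) := by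
      intro x hx
      rw [Set.mem_preimage, SetLike.mem_coe, Subgroup.mem_center_iff]
      intro y
      obtain ⟨g, rfl⟩ := QuotientGroup.mk_surjective y
      rw [← QuotientGroup.mk_mul, ← QuotientGroup.mk_mul, QuotientGroup.eq]
      have h4 : (g * x)⁻¹ * (x * g) = x⁻¹ * g⁻¹ * (x⁻¹)⁻¹ * (g⁻¹)⁻¹ := by group
      rw [h4, ← commutatorElement_def]
      exact Subgroup.commutator_mem_commutator (A.inv_mem hx) (Subgroup.mem_top _)
    have h5 := Set.ncard_le_ncard h3 (Set.toFinite _)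
    rw [← Nat.card_coe_set_eq, ← Nat.card_coe_set_eq,
      Nat.card_congr (QuotientGroup.preimageMkEquivSubgroupProdSet M _), Nat.card_prod] at h5
    exact h5
  have h2' : ((Nat.card A : ℕ) : ℝ) ≤ ((Nat.card M : ℕ) : ℝ) * B := by
    refine le_trans (b := ((Nat.card M : ℕ) : ℝ) *
      ((Nat.card (Subgroup.center (G ⧸ M)) : ℕ) : ℝ)) (by exact_mod_cast h2) ?_
    exact mul_le_mul_of_nonneg_left hB (Nat.cast_nonneg _)
  have h6 : ((Nat.card M : ℕ) : ℝ) * kk (G ⧸ M) ≤ ((Nat.card M : ℕ) : ℝ) * (B * kk (G ⧸ A)) := by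
    refine h1.trans ?_
    rw [← mul_assoc]
    exact mul_le_mul_of_nonneg_right h2' (kk_pos (G := G ⧸ A)).le
  exact le_of_mul_le_mul_left h6 (card_N_pos M)

lemma kk_quot_le (A R : Subgroup G) [A.Normal] (hAR : A ≤ R) :
    kk (G ⧸ A) ≤ ((Nat.card R : ℕ) : ℝ) / ((Nat.card A : ℕ) : ℝ) +
      ∑ x ∈ univ.filter (fun x : G => x ∉ R), w x := by
  have hApos := card_N_pos A
  set P : G ⧸ A → Prop := fun y => y ∈ R.map (QuotientGroup.mk' A) with hP
  have hPx : ∀ x : G, P (x : G ⧸ A) ↔ x ∈ R := by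
    intro x
    constructor
    · rintro ⟨z, hz, hzx⟩
      have h1 : z⁻¹ * x ∈ A := by rw [← QuotientGroup.eq]; exact hzx
      have h2 := R.mul_mem hz (hAR h1)
      simpa using h2
    · exact fun hx => ⟨x, hx, rfl⟩
  have h1 : kk (G ⧸ A) = ∑ y ∈ univ.filter P, w y + ∑ y ∈ univ.filter (fun y => ¬ P y), w y := by
    rw [kk_eq, Finset.sum_filter_add_sum_filter_not]
  rw [h1]
  apply add_le_add
  · have h2 := sum_quotient A P w
    rw [le_div_iff₀ hApos, mul_comm, h2]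
    refine le_trans (Finset.sum_le_sum (g := fun _ => (1 : ℝ)) fun x _ => w_le_one _) ?_
    rw [Finset.sum_const, nsmul_eq_mul, mul_one]
    have h3 : univ.filter (fun x : G => P (x : G ⧸ A)) = univ.filter (fun x : G => x ∈ R) := by
      ext x
      rw [mem_filter, mem_filter, hPx]
    rw [h3, card_filter_mem]
  · obtain ⟨Q, hQ⟩ : ∃ Q : G ⧸ A → Prop, ∀ y, Q y ↔ ¬ P y := ⟨_, fun _ => Iff.rfl⟩
    have h5 := sum_w_quotient_le A Q
    refine le_trans (le_of_eq (Finset.sum_congr ?_ fun _ _ => rfl)) (h5.trans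
      (le_of_eq (Finset.sum_congr ?_ fun _ _ => rfl)))
    · ext y
      simp only [mem_filter, hQ]
    · ext x
      simp only [mem_filter, hQ, hPx]

end bad

end Pool.Agent.Lib.MP_f3d5fe_al
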