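import Mathlib

set_option autoImplicit false

namespace Pool.Agent.Lib.MP_f3d5fe_al

open Module

universe u

/-- The set of irreducible complex characters of a group. -/
def Irr (G : Type u) [Group G] : Set (G → ℂ) :=
  {χ | ∃ (n : ℕ) (ρ : Representation ℂ G (Fin n → ℂ)), ρ.IsIrreducible ∧ ρ.character = χ}

section transport

variable {G : Type u} [Group G] {V W : Type*} [AddCommGroup V] [Module ℂ V] [AddCommGroup W]
  [Module ℂ W]

/-- Transport of a representation along a linear equivalence. -/
noncomputable def transport (ρ : Representation ℂ G V) (e : V ≃ₗ[ℂ] W) :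
    Representation ℂ G W where
  toFun g := e.toLinearMap ∘ₗ ρ g ∘ₗ e.symm.toLinearMap
  map_one' := by ext; simp
  map_mul' g h := by ext; simp

lemma transport_apply (ρ : Representation ℂ G V) (e : V ≃ₗ[ℂ] W) (g : G) (w : W) :
    transport ρ e g w = e (ρ g (e.symm w)) := rfl

/-- The transported representation is equivalent to the original one. -/
noncomputable def transportEquiv (ρ : Representation ℂ G V) (e : V ≃ₗ[ℂ] W) :
    Representation.Equiv ρ (transport ρ e) :=
  Representation.Equiv.mk e (fun g => by ext v; simp [transport_apply])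

lemma irreducible_of_equiv {ρ : Representation ℂ G V} {σ : Representation ℂ G W}
    (e : Representation.Equiv ρ σ) (h : ρ.IsIrreducible) : σ.IsIrreducible := by
  rw [Representation.irreducible_iff_isSimpleModule_asModule] at h ⊢
  let f : σ.asModule →ₗ[MonoidAlgebra ℂ G] ρ.asModule :=
    Representation.IntertwiningMap.equivLinearMapAsModule σ ρ e.symm.toIntertwiningMap
  have hf : Function.Bijective f := e.symm.toLinearEquiv.bijective
  exact IsSimpleModule.congr (LinearEquiv.ofBijective f hf)

lemma char_mem_Irr [FiniteDimensional ℂ V] (ρ : Representation ℂ G V) (h : ρ.IsIrreducible) :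
    ρ.character ∈ Irr G := by
  let e := (finBasis ℂ V).equivFun
  refine ⟨finrank ℂ V, transport ρ e, irreducible_of_equiv (transportEquiv ρ e) h, ?_⟩
  exact (Representation.char_iso (transportEquiv ρ e)).symm

end transport

section schur

variable {G : Type u} [Group G] {V : Type*} [AddCommGroup V] [Module ℂ V] [FiniteDimensional ℂ V]

/-- Schur's lemma. -/
lemma schur (ρ : Representation ℂ G V) (h : ρ.IsIrreducible) (T : V →ₗ[ℂ] V)
    (hT : ∀ g, T ∘ₗ ρ g = ρ g ∘ₗ T) : ∃ c : ℂ, T = c • LinearMap.id := by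
  let f : Representation.IntertwiningMap ρ ρ := ⟨T, hT⟩
  obtain ⟨c, hc⟩ :=
    (Representation.IsIrreducible.algebraMap_intertwiningMap_bijective_of_isAlgClosed (ρ := ρ)).2 f
  refine ⟨c, ?_⟩
  have := congrArg Representation.IntertwiningMap.toLinearMap hc
  exact this.symm

omit [FiniteDimensional ℂ V] in
lemma nontrivial_of_irreducible (ρ : Representation ℂ G V) (h : ρ.IsIrreducible) :
    Nontrivial V := by
  rw [Representation.irreducible_iff_isSimpleModule_asModule] at h
  exact IsSimpleModule.nontrivial (MonoidAlgebra ℂ G) ρ.asModule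

end schur

section orthogonality

variable {G : Type u} [Group G] [Finite G]

open Classical in
lemma orthogonality {χ ψ : G → ℂ} (hχ : χ ∈ Irr G) (hψ : ψ ∈ Irr G) [Fintype G] :
    (Nat.card G : ℂ)⁻¹ * ∑ g : G, χ g * ψ g⁻¹ = if χ = ψ then 1 else 0 := by
  obtain ⟨n, ρ, hρ, rfl⟩ := hχ
  obtain ⟨m, σ, hσ, rfl⟩ := hψ
  have : Invertible (Nat.card G : ℂ) := invertibleOfNonzero (by
    have := Nat.card_pos (α := G)
    exact_mod_cast this.ne')
  by_cases h : ρ.character = σ.character
  · rw [if_pos h, ← h, Representation.char_orthonormal ρ ρ, if_pos ⟨Representation.Equiv.refl ρ⟩]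
  · rw [if_neg h, Representation.char_orthonormal ρ σ, if_neg]
    rintro ⟨e⟩
    exact h (Representation.char_iso e).symm

/-- The class function on conjugacy classes attached to an irreducible character. -/
noncomputable def clsFun (χ : G → ℂ) (K : ConjClasses G) : ℂ := χ (Quotient.out K)

omit [Finite G] in
lemma Irr_conj {χ : G → ℂ} (hχ : χ ∈ Irr G) (g h : G) : χ (h * g * h⁻¹) = χ g := by
  obtain ⟨n, ρ, hρ, rfl⟩ := hχ
  exact Representation.char_conj ρ g h

omit [Finite G] in
lemma Irr_isConj {χ : G → ℂ} (hχ : χ ∈ Irr G) {g h : G} (hgh : IsConj g h) : χ g = χ h := by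
  obtain ⟨c, hc⟩ := isConj_iff.1 hgh
  rw [← hc, Irr_conj hχ]

omit [Finite G] in
lemma clsFun_mk {χ : G → ℂ} (hχ : χ ∈ Irr G) (g : G) : clsFun χ (ConjClasses.mk g) = χ g := by
  apply Irr_isConj hχ
  rw [← ConjClasses.mk_eq_mk_iff_isConj]
  exact Quotient.out_eq (ConjClasses.mk g)

lemma clsFun_linearIndependent :
    LinearIndependent ℂ (fun χ : Irr G => (clsFun χ.1 : ConjClasses G → ℂ)) := by
  classical
  have : Fintype G := Fintype.ofFinite G
  rw [linearIndependent_iff']
  intro s c hc χ hχ
  have h1 : ∀ g : G, ∑ ψ ∈ s, c ψ * ψ.1 g = 0 := by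
    intro g
    have := congrFun hc (ConjClasses.mk g)
    simp only [Finset.sum_apply, Pi.smul_apply, smul_eq_mul, Pi.zero_apply] at this
    rw [← this]
    refine Finset.sum_congr rfl fun ψ _ => ?_
    rw [clsFun_mk ψ.2]
  have h2 : ∑ ψ ∈ s, c ψ * ((Nat.card G : ℂ)⁻¹ * ∑ g : G, ψ.1 g * χ.1 g⁻¹) = 0 := by
    calc ∑ ψ ∈ s, c ψ * ((Nat.card G : ℂ)⁻¹ * ∑ g : G, ψ.1 g * χ.1 g⁻¹)
        = (Nat.card G : ℂ)⁻¹ * ∑ g : G, (∑ ψ ∈ s, c ψ * ψ.1 g) * χ.1 g⁻¹ := by
          simp_rw [Finset.mul_sum, Finset.sum_mul, Finset.mul_sum]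
          rw [Finset.sum_comm]
          refine Finset.sum_congr rfl fun g _ => Finset.sum_congr rfl fun ψ _ => by ring
      _ = 0 := by simp [h1]
  rw [Finset.sum_eq_single_of_mem χ hχ] at h2
  · rwa [orthogonality χ.2 χ.2, if_pos rfl, mul_one] at h2
  · intro ψ _ hne
    rw [orthogonality ψ.2 χ.2, if_neg (fun h => hne (Subtype.ext h)), mul_zero]

instance Irr_finite : Finite (Irr G) := by
  have : Finite (ConjClasses G) := Quotient.finite _
  have := Fintype.ofFinite (ConjClasses G)
  exact (clsFun_linearIndependent (G := G)).finite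

lemma card_Irr_le : Nat.card (Irr G) ≤ Nat.card (ConjClasses G) := by
  classical
  have : Finite (ConjClasses G) := Quotient.finite _
  have := Fintype.ofFinite (ConjClasses G)
  have := Fintype.ofFinite (Irr G)
  have h := (clsFun_linearIndependent (G := G)).fintype_card_le_finrank
  rw [Module.finrank_fintype_fun_eq_card] at h
  rwa [Nat.card_eq_fintype_card, Nat.card_eq_fintype_card]

/-- The central element attached to a class function. -/
noncomputable def cen [Fintype G] (f : G → ℂ) : MonoidAlgebra ℂ G :=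
  ∑ g : G, MonoidAlgebra.single g⁻¹ (f g)

omit [Finite G] in
lemma asAlgebraHom_cen [Fintype G] {V : Type*} [AddCommGroup V] [Module ℂ V] (f : G → ℂ)
    (ρ : Representation ℂ G V) : ρ.asAlgebraHom (cen f) = ∑ g : G, f g • ρ g⁻¹ := by
  unfold cen
  rw [map_sum]
  refine Finset.sum_congr rfl fun g _ => ?_
  rw [Representation.asAlgebraHom_single]

omit [Finite G] in
lemma cen_irreducible [Fintype G] {V : Type*} [AddCommGroup V] [Module ℂ V]
    [FiniteDimensional ℂ V] (f : G → ℂ) (hf : ∀ g h, f (h * g * h⁻¹) = f g)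
    (ρ : Representation ℂ G V) (hρ : ρ.IsIrreducible)
    (h0 : ∑ g : G, f g * ρ.character g⁻¹ = 0) : ρ.asAlgebraHom (cen f) = 0 := by
  rw [asAlgebraHom_cen]
  set T : V →ₗ[ℂ] V := ∑ g : G, f g • ρ g⁻¹ with hT
  have hcomm : ∀ h, T ∘ₗ ρ h = ρ h ∘ₗ T := by
    intro h
    rw [hT]
    ext v
    simp only [LinearMap.comp_apply, LinearMap.sum_apply, LinearMap.smul_apply, map_sum, map_smul]
    rw [← Equiv.sum_comp (MulAut.conj h).toEquiv]
    refine Finset.sum_congr rfl fun g _ => ?_
    simp only [MulEquiv.toEquiv_eq_coe, MulEquiv.coe_toEquiv, MulAut.conj_apply]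
    rw [hf, ← Module.End.mul_apply, ← Module.End.mul_apply, ← map_mul, ← map_mul]
    congr 3
    group
  obtain ⟨c, hc⟩ := schur ρ hρ T hcomm
  have htr : LinearMap.trace ℂ V T = 0 := by
    rw [hT, map_sum, ← h0]
    refine Finset.sum_congr rfl fun g _ => ?_
    rw [map_smul, smul_eq_mul]
    rfl
  have hn := nontrivial_of_irreducible ρ hρ
  rw [hc, map_smul, LinearMap.trace_id, smul_eq_mul, mul_eq_zero] at htr
  rcases htr with h | h
  · rw [hc, h, zero_smul]
  · have : 0 < finrank ℂ V := finrank_pos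
    exact absurd (by exact_mod_cast h) this.ne'

lemma asAlgebraHom_cen_eq_zero [Fintype G] (f : G → ℂ) (hf : ∀ g h, f (h * g * h⁻¹) = f g)
    (h0 : ∀ χ ∈ Irr G, ∑ g : G, f g * χ g⁻¹ = 0) :
    ∀ (n : ℕ) (V : Type u) [AddCommGroup V] [Module ℂ V] [FiniteDimensional ℂ V]
      (ρ : Representation ℂ G V), finrank ℂ V = n → ρ.asAlgebraHom (cen f) = 0 := by
  have hne : NeZero (Nat.card G : ℂ) := ⟨by
    have := Nat.card_pos (α := G)
    exact_mod_cast this.ne'⟩
  intro n
  induction n using Nat.strong_induction_on with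
  | _ n ih =>
    intro V _ _ _ ρ hn
    by_cases hirr : ρ.IsIrreducible
    · exact cen_irreducible f hf ρ hirr (h0 _ (char_mem_Irr ρ hirr))
    rcases subsingleton_or_nontrivial V with hV | hV
    · ext v
      exact Subsingleton.elim _ _
    have hnt : Nontrivial (Subrepresentation ρ) := by
      refine ⟨⊥, ⊤, fun h => ?_⟩
      obtain ⟨v, hv⟩ := exists_ne (0 : V)
      have h1 : (⊥ : Subrepresentation ρ).toSubmodule = (⊤ : Subrepresentation ρ).toSubmodule := by
        rw [h]
      have h2 : v ∈ (⊤ : Subrepresentation ρ).toSubmodule := Submodule.mem_top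
      rw [← h1] at h2
      exact hv ((Submodule.mem_bot ℂ).1 h2)
    obtain ⟨U, hU0, hU1⟩ : ∃ U : Subrepresentation ρ, U ≠ ⊥ ∧ U ≠ ⊤ := by
      by_contra hcon
      push Not at hcon
      apply hirr
      exact { eq_bot_or_eq_top := fun U => by
                by_cases h : U = ⊥
                · exact Or.inl h
                · exact Or.inr (hcon U h) }
    obtain ⟨W, hW⟩ := exists_isCompl U
    have hW1 : W ≠ ⊤ := by
      rintro rfl
      exact hU0 (by simpa using hW.inf_eq_bot)
    have hsub : ∀ S : Subrepresentation ρ, S ≠ ⊤ → ∀ v ∈ S.toSubmodule,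
        ρ.asAlgebraHom (cen f) v = 0 := by
      intro S hS v hv
      have hlt : finrank ℂ S.toSubmodule < n := by
        rw [← hn]
        apply Submodule.finrank_lt
        intro h
        apply hS
        exact Subrepresentation.toSubmodule_injective h
      have h1 := ih _ hlt S.toSubmodule S.toRepresentation rfl
      rw [asAlgebraHom_cen] at h1 ⊢
      have h2 := congrArg (fun T => (T ⟨v, hv⟩ : S.toSubmodule)) h1
      have h3 := congrArg (Subtype.val) h2
      simp only [LinearMap.sum_apply, LinearMap.smul_apply, LinearMap.zero_apply,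
        Submodule.coe_zero, Submodule.coe_sum, Submodule.coe_smul] at h3 ⊢
      exact h3
    ext v
    have hv : v ∈ (U ⊔ W).toSubmodule := by
      rw [hW.sup_eq_top]
      exact Submodule.mem_top
    rw [Subrepresentation.toSubmodule_sup] at hv
    obtain ⟨u, hu, w, hw, rfl⟩ := Submodule.mem_sup.1 hv
    rw [map_add, hsub U hU1 u hu, hsub W hW1 w hw]
    simp

/-- The regular representation on functions. -/
def reg (G : Type u) [Group G] : Representation ℂ G (G → ℂ) where
  toFun g :=
    { toFun := fun F x => F (g⁻¹ * x)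
      map_add' := fun _ _ => rfl
      map_smul' := fun _ _ => rfl }
  map_one' := by ext F x; simp
  map_mul' g h := by ext F x; simp [mul_assoc]

omit [Finite G] in
lemma reg_apply (g : G) (F : G → ℂ) (x : G) : reg G g F x = F (g⁻¹ * x) := rfl

lemma classFun_eq_zero [Fintype G] (f : G → ℂ) (hf : ∀ g h, f (h * g * h⁻¹) = f g)
    (h0 : ∀ χ ∈ Irr G, ∑ g : G, f g * χ g⁻¹ = 0) : f = 0 := by
  classical
  have h1 := asAlgebraHom_cen_eq_zero f hf h0 _ (G → ℂ) (reg G) rfl
  rw [asAlgebraHom_cen] at h1
  have h2 := congrArg (fun T => (T (Pi.single 1 1) : G → ℂ)) h1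
  funext g
  have h3 := congrFun h2 g⁻¹
  simp only [LinearMap.sum_apply, LinearMap.smul_apply, LinearMap.zero_apply, Pi.zero_apply,
    Finset.sum_apply, Pi.smul_apply, reg_apply, smul_eq_mul, inv_inv] at h3
  rw [Finset.sum_eq_single g] at h3
  · simpa using h3
  · intro b _ hb
    rw [Pi.single_eq_of_ne, mul_zero]
    intro h
    exact hb (eq_of_mul_inv_eq_one h)
  · intro h
    exact absurd (Finset.mem_univ g) h

/-- The number of irreducible characters is the number of conjugacy classes. -/
theorem card_Irr : Nat.card (Irr G) = Nat.card (ConjClasses G) := by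
  classical
  refine le_antisymm card_Irr_le ?_
  have := Fintype.ofFinite G
  have : Finite (ConjClasses G) := Quotient.finite _
  have := Fintype.ofFinite (ConjClasses G)
  have := Fintype.ofFinite (Irr G)
  let Φ : (ConjClasses G → ℂ) →ₗ[ℂ] (Irr G → ℂ) :=
    { toFun := fun F χ => ∑ g : G, F (ConjClasses.mk g) * χ.1 g⁻¹
      map_add' := fun F F' => by
        funext χ
        simp only [Pi.add_apply, add_mul, Finset.sum_add_distrib]
      map_smul' := fun c F => by
        funext χ
        simp only [Pi.smul_apply, smul_eq_mul, RingHom.id_apply, Finset.mul_sum, mul_assoc] }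
  have hinj : Function.Injective Φ := by
    rw [← LinearMap.ker_eq_bot, LinearMap.ker_eq_bot']
    intro F hF
    have h1 : (fun g : G => F (ConjClasses.mk g)) = 0 := by
      apply classFun_eq_zero
      · intro g h
        congr 1
        rw [ConjClasses.mk_eq_mk_iff_isConj, isConj_comm]
        exact isConj_iff.2 ⟨h, rfl⟩
      · intro χ hχ
        exact congrFun hF ⟨χ, hχ⟩
    funext K
    obtain ⟨g, rfl⟩ := ConjClasses.mk_surjective K
    exact congrFun h1 g
  have h2 := LinearMap.finrank_le_finrank_of_injective hinj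
  rw [Module.finrank_fintype_fun_eq_card, Module.finrank_fintype_fun_eq_card] at h2
  rwa [Nat.card_eq_fintype_card, Nat.card_eq_fintype_card]

end orthogonality

section inflation

variable {G : Type u} [Group G]

lemma irreducible_comp_iff {H : Type*} [Group H] {V : Type*} [AddCommGroup V] [Module ℂ V]
    (φ : G →* H) (hφ : Function.Surjective φ) (ρ : Representation ℂ H V)
    (ρ' : Representation ℂ G V) (hρ : ∀ g, ρ' g = ρ (φ g)) :
    ρ'.IsIrreducible ↔ ρ.IsIrreducible := by
  let e : Subrepresentation ρ' ≃o Subrepresentation ρ :=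
    { toFun := fun S => ⟨S.toSubmodule, fun h v hv => by
        obtain ⟨g, rfl⟩ := hφ h
        rw [← hρ]
        exact S.apply_mem_toSubmodule g hv⟩
      invFun := fun S => ⟨S.toSubmodule, fun g v hv => by
        rw [hρ]
        exact S.apply_mem_toSubmodule _ hv⟩
      left_inv := fun S => rfl
      right_inv := fun S => rfl
      map_rel_iff' := Iff.rfl }
  exact OrderIso.isSimpleOrder_iff e

/-- The irreducible characters of `G` inflated from `G ⧸ N`. -/
def infl (N : Subgroup G) [N.Normal] : Set (G → ℂ) :=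
  (fun (ψ : G ⧸ N → ℂ) (g : G) => ψ (g : G ⧸ N)) '' Irr (G ⧸ N)

lemma infl_subset_Irr (N : Subgroup G) [N.Normal] : infl N ⊆ Irr G := by
  rintro _ ⟨ψ, ⟨n, ρ, hρ, rfl⟩, rfl⟩
  refine ⟨n, MonoidHom.comp ρ (QuotientGroup.mk' N), ?_, rfl⟩
  rw [irreducible_comp_iff (QuotientGroup.mk' N) (QuotientGroup.mk'_surjective N) ρ _
    (fun g => rfl)]
  exact hρ

lemma ncard_infl [Finite G] (N : Subgroup G) [N.Normal] :
    (infl N).ncard = Nat.card (ConjClasses (G ⧸ N)) := by
  rw [infl, Set.ncard_image_of_injective, ← card_Irr, Nat.card_coe_set_eq]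
  intro ψ ψ' h
  funext x
  obtain ⟨g, rfl⟩ := QuotientGroup.mk_surjective x
  exact congrFun h g

lemma mem_infl_of_trivial (N : Subgroup G) [N.Normal] {V : Type*} [AddCommGroup V] [Module ℂ V]
    [FiniteDimensional ℂ V] (ρ : Representation ℂ G V) (hρ : ρ.IsIrreducible)
    (hN : ∀ n ∈ N, ρ n = 1) : ρ.character ∈ infl N := by
  let σ : Representation ℂ (G ⧸ N) V := QuotientGroup.lift N ρ (fun n hn => hN n hn)
  have hσ : ∀ g, ρ g = σ (QuotientGroup.mk' N g) := fun g => rfl
  refine ⟨σ.character, char_mem_Irr σ ?_, ?_⟩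
  · exact (irreducible_comp_iff (QuotientGroup.mk' N) (QuotientGroup.mk'_surjective N) σ ρ hσ).1 hρ
  · rfl

lemma infl_exists_rep (N : Subgroup G) [N.Normal] {χ : G → ℂ} (hχ : χ ∈ infl N) :
    ∃ (n : ℕ) (ρ : Representation ℂ G (Fin n → ℂ)), ρ.IsIrreducible ∧ ρ.character = χ ∧
      ∀ g ∈ N, ρ g = 1 := by
  obtain ⟨ψ, ⟨n, ρ, hρ, rfl⟩, rfl⟩ := hχ
  refine ⟨n, MonoidHom.comp ρ (QuotientGroup.mk' N), ?_, rfl, ?_⟩
  · rw [irreducible_comp_iff (QuotientGroup.mk' N) (QuotientGroup.mk'_surjective N) ρ _
      (fun g => rfl)]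
    exact hρ
  · intro g hg
    rw [MonoidHom.comp_apply, QuotientGroup.mk'_apply, (QuotientGroup.eq_one_iff g).2 hg, map_one]

lemma infl_anti {N N' : Subgroup G} [N.Normal] [N'.Normal] (h : N ≤ N') : infl N' ⊆ infl N := by
  intro χ hχ
  obtain ⟨n, ρ, hρ, rfl, hN⟩ := infl_exists_rep N' hχ
  exact mem_infl_of_trivial N ρ hρ fun g hg => hN g (h hg)

/-- If `x` is conjugate to `x * c` where `c` acts as a nontrivial scalar, then the character
vanishes at `x`. -/
lemma char_eq_zero_of_scalar {V : Type*} [AddCommGroup V] [Module ℂ V]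
    [FiniteDimensional ℂ V] (ρ : Representation ℂ G V) (x c : G) (ζ : ℂ) (hζ : ζ ≠ 1)
    (hc : ρ c = ζ • (1 : V →ₗ[ℂ] V)) (hx : IsConj x (x * c)) : ρ.character x = 0 := by
  obtain ⟨g, hg⟩ := isConj_iff.1 hx
  have h1 : ρ.character (x * c) = ρ.character x := by
    rw [← hg, Representation.char_conj]
  have h2 : ρ.character (x * c) = ζ * ρ.character x := by
    unfold Representation.character
    rw [map_mul, hc, mul_smul_comm, mul_one, map_smul, smul_eq_mul]
  rw [h1] at h2
  have h3 : (1 - ζ) * ρ.character x = 0 := by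
    rw [sub_mul, one_mul, ← h2, sub_self]
  rcases mul_eq_zero.1 h3 with h | h
  · exact absurd (sub_eq_zero.1 h).symm hζ
  · exact h

end inflation

end Pool.Agent.Lib.MP_f3d5fe_al
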