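import Pool.Agent.Lib.MP_f3d5fe_al.Zeros

set_option autoImplicit false

namespace Pool.Agent.Lib.MP_f3d5fe_al

open Classical Finset

universe u

section gen

variable {G : Type u} [Group G] [Finite G] {p : ℕ} [hp : Fact p.Prime]

lemma commutator_le_coatom (hG : IsPGroup p G) (M : Subgroup G) (hM : IsCoatom M) :
    commutator G ≤ M := by
  have hnil : Group.IsNilpotent G := hG.isNilpotent
  have hMn : M.Normal :=
    Subgroup.NormalizerCondition.normal_of_coatom M (Group.normalizerCondition_of_isNilpotent) hM
  by_contra hcon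
  have h1 : M ⊔ commutator G = ⊤ := by
    apply hM.2
    exact lt_of_le_of_ne le_sup_left (fun h => hcon (by rw [h]; exact le_sup_right))
  have hQ : IsPGroup p (G ⧸ M) := hG.to_quotient M
  have h2 : (commutator G).map (QuotientGroup.mk' M) = ⊤ := by
    have h3 : (M ⊔ commutator G).map (QuotientGroup.mk' M) = ⊤ := by
      rw [h1, ← MonoidHom.range_eq_map, MonoidHom.range_eq_top]
      exact QuotientGroup.mk'_surjective M
    rw [Subgroup.map_sup] at h3
    have h4 : M.map (QuotientGroup.mk' M) = ⊥ := by
      rw [Subgroup.map_eq_bot_iff, QuotientGroup.ker_mk']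
    rwa [h4, bot_sup_eq] at h3
  have h5 : (⊤ : Subgroup (G ⧸ M)) ≠ ⊥ := by
    intro h
    apply hM.1
    have h6 : Subsingleton (Subgroup (G ⧸ M)) := subsingleton_of_bot_eq_top h.symm
    have h7 : Subsingleton (G ⧸ M) := Subgroup.subsingleton_iff.1 h6
    exact QuotientGroup.subgroup_eq_top_of_subsingleton M h7
  apply commutator_ne hQ ⊤ h5
  rw [commutator_def, Subgroup.map_commutator, ← MonoidHom.range_eq_map,
    MonoidHom.range_eq_top.2 (QuotientGroup.mk'_surjective M)] at h2
  exact h2

lemma exists_generators (hG : IsPGroup p G) :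
    ∃ S : Finset G, S.card ≤ (commutator G).index ∧ Subgroup.closure (S : Set G) = ⊤ := by
  have : Fintype (G ⧸ commutator G) := Fintype.ofFinite _
  refine ⟨(univ : Finset (G ⧸ commutator G)).image Quotient.out, ?_, ?_⟩
  · refine Finset.card_image_le.trans (le_of_eq ?_)
    rw [Finset.card_univ, Subgroup.index, Nat.card_eq_fintype_card]
    rfl
  · by_contra hne
    obtain ⟨M, hM, hSM⟩ : ∃ M : Subgroup G, IsCoatom M ∧
        Subgroup.closure (((univ : Finset (G ⧸ commutator G)).image Quotient.out : Finset G) :
          Set G) ≤ M := by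
      rcases eq_top_or_exists_le_coatom (Subgroup.closure
        (((univ : Finset (G ⧸ commutator G)).image Quotient.out : Finset G) : Set G)) with h | h
      · exact absurd h hne
      · exact h
    have hcM := commutator_le_coatom hG M hM
    apply hM.1
    rw [eq_top_iff]
    intro g _
    have h1 : (Quotient.out (g : G ⧸ commutator G) : G) ∈ M := by
      apply hSM
      apply Subgroup.subset_closure
      simp
    have h2 : (Quotient.out (g : G ⧸ commutator G) : G)⁻¹ * g ∈ commutator G := by
      rw [← QuotientGroup.eq]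
      exact QuotientGroup.out_eq' _
    have h3 := M.mul_mem h1 (hcM h2)
    rwa [mul_inv_cancel_left] at h3

lemma card_hom_le (S : Finset G) (hS : Subgroup.closure (S : Set G) = ⊤) (X : Type*) [Group X]
    [Finite X] : Finite (G →* X) ∧ Nat.card (G →* X) ≤ Nat.card X ^ S.card := by
  let f : (G →* X) → (S → X) := fun φ s => φ s
  have hf : Function.Injective f := by
    intro φ ψ h
    apply MonoidHom.eq_of_eqOn_dense hS
    intro s hs
    exact congrFun h ⟨s, hs⟩
  refine ⟨Finite.of_injective f hf, ?_⟩
  have h1 := Nat.card_le_card_of_injective f hf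
  rw [Nat.card_fun] at h1
  simpa using h1

/-- A normal subgroup of bounded index centralising all elements with small classes. -/
lemma exists_H (L C : ℕ) : ∃ h : ℕ, 0 < h ∧ ∀ (G : Type u) [Group G] [Finite G] (p : ℕ)
    [Fact p.Prime], IsPGroup p G → (commutator G).index ≤ L →
    ∃ H : Subgroup G, H.Normal ∧ H.index ≤ h ∧ ∀ x : G, cs x ≤ C → ∀ y ∈ H, y * x = x * y := by
  refine ⟨(C.factorial) ^ (C.factorial ^ L), by positivity, ?_⟩
  intro G _ _ p _ hG hL
  obtain ⟨S, hS, hgen⟩ := exists_generators hG
  obtain ⟨hfin, hcard⟩ := card_hom_le S hgen (Equiv.Perm (Fin C))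
  let Φ : G →* ((G →* Equiv.Perm (Fin C)) → Equiv.Perm (Fin C)) := MonoidHom.pi fun f => f
  have hperm : Nat.card (Equiv.Perm (Fin C)) = C.factorial := by
    rw [Nat.card_perm, Nat.card_fin]
  refine ⟨Φ.ker, inferInstance, ?_, ?_⟩
  · rw [Subgroup.index_ker]
    have h1 : Nat.card Φ.range ≤ Nat.card ((G →* Equiv.Perm (Fin C)) → Equiv.Perm (Fin C)) :=
      Nat.card_le_card_of_injective _ Subtype.val_injective
    refine h1.trans ?_
    rw [Nat.card_fun, hperm]
    apply Nat.pow_le_pow_right (Nat.factorial_pos C)
    rw [hperm] at hcard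
    exact hcard.trans (Nat.pow_le_pow_right (Nat.factorial_pos C) (hS.trans hL))
  · intro x hx y hy
    set K := CN ⊥ inferInstance x with hK
    have hidx : K.index = cs x := index_CN_bot x
    have hcardK : Nat.card (G ⧸ K) ≤ C := by
      have : Nat.card (G ⧸ K) = K.index := rfl
      rw [this, hidx]; exact hx
    have : Fintype (G ⧸ K) := Fintype.ofFinite _
    have hemb : Nonempty ((G ⧸ K) ↪ Fin C) := by
      rw [Function.Embedding.nonempty_iff_card_le]
      rwa [Fintype.card_fin, ← Nat.card_eq_fintype_card]
    obtain ⟨ι⟩ := hemb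
    let f : G →* Equiv.Perm (Fin C) :=
      (Equiv.Perm.viaEmbeddingHom ι).comp (MulAction.toPermHom G (G ⧸ K))
    have h1 : f y = 1 := by
      have := congrFun (MonoidHom.mem_ker.1 hy) f
      exact this
    have h2 : MulAction.toPermHom G (G ⧸ K) y = 1 := by
      apply Equiv.Perm.viaEmbeddingHom_injective ι
      rw [map_one]
      exact h1
    have h3 : y ∈ K.normalCore := by
      rw [Subgroup.normalCore_eq_ker]
      exact MonoidHom.mem_ker.2 h2
    have h4 : y ∈ K := Subgroup.normalCore_le K h3
    rw [hK, mem_CN, Subgroup.mem_bot] at h4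
    have h5 : y * x * y⁻¹ = x := by
      have := congrArg (fun z => x * z) h4
      simpa using this
    calc y * x = y * x * y⁻¹ * y := by group
      _ = x * y := by rw [h5]

end gen

end Pool.Agent.Lib.MP_f3d5fe_al
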