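import Pool.Agent.Lib.MP_f3d5fe_al.HLemma

set_option autoImplicit false

namespace Pool.Agent.Lib.MP_f3d5fe_al

open Classical Finset

universe u

section linear

variable {G : Type u} [Group G] [Finite G]

omit [Finite G] in
lemma quot_comm (a b : G ⧸ commutator G) : a * b = b * a :=
  (inferInstance : CommGroup (Abelianization G)).mul_comm a b

lemma ncard_Lin : (infl (commutator G)).ncard = (commutator G).index := by
  rw [ncard_infl]
  symm
  refine Nat.card_congr (Equiv.ofBijective ConjClasses.mk ⟨?_, ConjClasses.mk_surjective⟩)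
  intro a b h
  rw [ConjClasses.mk_eq_mk_iff_isConj] at h
  obtain ⟨c, hc⟩ := isConj_iff.1 h
  rw [← hc, quot_comm c a, mul_assoc, mul_inv_cancel, mul_one]

omit [Finite G] in
lemma Lin_ne_zero {χ : G → ℂ} (hχ : χ ∈ infl (commutator G)) (x : G) : χ x ≠ 0 := by
  obtain ⟨n, ρ, hρ, rfl, hN⟩ := infl_exists_rep _ hχ
  have hx : x ∈ Zc ρ := by
    intro g
    have h1 : x * g = (x * g * x⁻¹ * g⁻¹) * (g * x) := by group
    have h2 : x * g * x⁻¹ * g⁻¹ ∈ commutator G := by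
      rw [commutator_eq_closure]
      apply Subgroup.subset_closure
      exact ⟨x, g, by rw [commutatorElement_def]⟩
    rw [h1, map_mul, hN _ h2, one_mul]
  obtain ⟨c, hc⟩ := scalar_of_mem_Zc hρ hx
  have hV := nontrivial_of_irreducible ρ hρ
  unfold Representation.character
  rw [hc, map_smul, LinearMap.trace_one, smul_eq_mul]
  apply mul_ne_zero
  · rintro rfl
    have h1 : ρ x * ρ x⁻¹ = 1 := by rw [← map_mul, mul_inv_cancel, map_one]
    rw [hc, zero_smul, zero_mul] at h1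
    exact zero_ne_one h1
  · have : 0 < Module.finrank ℂ (Fin n → ℂ) := Module.finrank_pos
    exact_mod_cast this.ne'

omit [Finite G] in
lemma Irr_one_ne_zero {χ : G → ℂ} (hχ : χ ∈ Irr G) : χ 1 ≠ 0 := by
  obtain ⟨n, ρ, hρ, rfl⟩ := hχ
  have hV := nontrivial_of_irreducible ρ hρ
  rw [Representation.char_one]
  have : 0 < Module.finrank ℂ (Fin n → ℂ) := Module.finrank_pos
  exact_mod_cast this.ne'

omit [Finite G] in
lemma infl_of_le_Zc (A : Subgroup G) [A.Normal] {V : Type*} [AddCommGroup V] [Module ℂ V]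
    [FiniteDimensional ℂ V] (ρ : Representation ℂ G V) (hρ : ρ.IsIrreducible)
    (hA : A ≤ Zc ρ) : ρ.character ∈ infl ⁅A, (⊤ : Subgroup G)⁆ := by
  apply mem_infl_of_trivial _ ρ hρ
  have h1 : ⁅A, (⊤ : Subgroup G)⁆ ≤ MonoidHom.ker ρ := by
    rw [Subgroup.commutator_le]
    intro a ha g _
    rw [MonoidHom.mem_ker, commutatorElement_def]
    have h2 := hA ha g
    have h3 : a * g * a⁻¹ * g⁻¹ = (a * g) * (g * a)⁻¹ := by group
    rw [h3, map_mul, h2, ← map_mul, mul_inv_cancel, map_one]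
  intro n hn
  exact MonoidHom.mem_ker.1 (h1 hn)

variable {p : ℕ} [hp : Fact p.Prime]

omit [Finite G] hp in
lemma IsChain'.mono {r : ℕ} {N : ℕ → Subgroup G} {B : Subgroup G}
    (hN : IsChain' p r N B) {i j : ℕ} (hij : i ≤ j) (hj : j ≤ r) : N i ≤ N j := by
  induction j, hij using Nat.le_induction with
  | base => exact le_rfl
  | succ j _ ih => exact (ih (Nat.le_of_succ_le hj)).trans (hN.le j hj)

lemma nonlinear_vanish (hG : IsPGroup p G) {χ : G → ℂ} (hχ : χ ∈ Irr G)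
    (hχ' : χ ∉ infl (commutator G)) :
    ∃ K : Subgroup G, K ≠ ⊤ ∧ commutator G ≤ K ∧ ∀ g, g ∉ K → χ g = 0 := by
  obtain ⟨n, ρ, hρ, rfl⟩ := hχ
  obtain ⟨r, hr⟩ := IsPGroup.iff_card.1 hG
  obtain ⟨N, hN⟩ := exists_chain hG r (⊤ : Subgroup G) (by rw [Subgroup.card_top, hr])
  have hex : ∃ j, ¬ N j ≤ Zc ρ := by
    refine ⟨r, fun h => hχ' ?_⟩
    rw [hN.last] at h
    exact infl_of_le_Zc ⊤ ρ hρ h
  have hspec := Nat.find_spec hex
  have hmin : ∀ m, m < Nat.find hex → N m ≤ Zc ρ := fun m hm => not_not.1 (Nat.find_min hex hm)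
  have hfr : Nat.find hex ≤ r := Nat.find_min' hex (fun h => hχ' (by
    rw [hN.last] at h
    exact infl_of_le_Zc ⊤ ρ hρ h))
  obtain ⟨i, hi⟩ : ∃ i, Nat.find hex = i + 1 := by
    apply Nat.exists_eq_succ_of_ne_zero
    intro h0
    apply hspec
    rw [h0, hN.zero]
    exact bot_le
  rw [hi] at hspec hmin hfr
  obtain ⟨x, hx, hxZ⟩ := SetLike.not_le_iff_exists.1 hspec
  exact (vanish_second_centre hρ hxZ fun g => hmin i (Nat.lt_succ_self i)
    (hN.comm i hfr x hx g)).2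

omit [Finite G] in
lemma prime_step {q : ℕ} (hq : q.Prime) {N M N' : Subgroup G} (h1 : N ≤ M) (h2 : M ≤ N')
    (hidx : N.relIndex N' = q) : M ≤ N ∨ N' ≤ M := by
  have h3 := Subgroup.relIndex_mul_relIndex N M N' h1 h2
  rw [hidx] at h3
  rcases (Nat.dvd_prime hq).1 (Dvd.intro_left _ h3) with h | h
  · exact Or.inr (Subgroup.relIndex_eq_one.1 h)
  · left
    rw [h] at h3
    have h5 : N.relIndex M = 1 := Nat.eq_of_mul_eq_mul_right hq.pos (by rw [h3, one_mul])
    exact Subgroup.relIndex_eq_one.1 h5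

lemma layer_vanish {r : ℕ} {N : ℕ → Subgroup G} {A : Subgroup G} [A.Normal]
    (hN : IsChain' p r N A) {j : ℕ} (hj : j ≤ r) [(N j).Normal] {χ : G → ℂ} (hχ : χ ∈ infl (N j))
    (hχ' : χ ∉ infl ⁅A, (⊤ : Subgroup G)⁆) :
    ∃ i, j ≤ i ∧ i < r ∧ ∀ x ∈ N (i + 1), x ∉ N i → χ x = 0 := by
  obtain ⟨n, ρ, hρ, rfl, hNj⟩ := infl_exists_rep _ hχ
  have hNjZ : N j ≤ Zc ρ := by
    intro x hx g
    rw [map_mul, map_mul, hNj x hx, one_mul, mul_one]
  have hr : ¬ N r ≤ Zc ρ := by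
    intro h
    rw [hN.last] at h
    exact hχ' (infl_of_le_Zc A ρ hρ h)
  have hex : ∃ m, ¬ N m ≤ Zc ρ := ⟨r, hr⟩
  have hspec := Nat.find_spec hex
  have hmin : ∀ m, m < Nat.find hex → N m ≤ Zc ρ := fun m hm => not_not.1 (Nat.find_min hex hm)
  have hfr : Nat.find hex ≤ r := Nat.find_min' hex hr
  have hjf : j < Nat.find hex := by
    by_contra h
    exact hspec ((hN.mono (not_lt.1 h) hj).trans hNjZ)
  obtain ⟨i, hi⟩ : ∃ i, Nat.find hex = i + 1 := Nat.exists_eq_succ_of_ne_zero (by omega)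
  rw [hi] at hspec hmin hfr hjf
  refine ⟨i, Nat.lt_succ_iff.1 hjf, hfr, fun x hx hxi => ?_⟩
  have hNi : N i ≤ Zc ρ := hmin i (Nat.lt_succ_self i)
  have hxZ : x ∉ Zc ρ := by
    intro hxZ
    rcases prime_step hp.out (N := N i) (M := Zc ρ ⊓ N (i + 1)) (N' := N (i + 1))
      (le_inf hNi (hN.le i hfr)) inf_le_right (hN.relIndex hfr) with h | h
    · exact hxi (h ⟨hxZ, hx⟩)
    · exact hspec (h.trans inf_le_left)
  exact (vanish_second_centre hρ hxZ fun g => hNi (hN.comm i hfr x hx g)).1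

end linear

section sizes

variable {G : Type u} [Group G] [Finite G] (N : Subgroup G) [N.Normal]

omit [Finite G] in
/-- The class size in a quotient as an index. -/
lemma cs_mk_eq (hN : N.Normal) (x : G) : cs (x : G ⧸ N) = (CN N hN x).index := by
  unfold cs Subgroup.index
  rw [← Nat.card_coe_set_eq]
  symm
  refine Nat.card_congr (Equiv.ofBijective (Quotient.lift (fun g => (⟨((g * x * g⁻¹ : G) : G ⧸ N),
    isConj_iff.2 ⟨(g : G ⧸ N), rfl⟩⟩ : {y : G ⧸ N | IsConj (x : G ⧸ N) y})) ?_) ⟨?_, ?_⟩)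
  · intro g h hgh
    have h1 : g⁻¹ * h ∈ CN N hN x := by
      rw [← QuotientGroup.leftRel_apply]; exact hgh
    rw [mem_CN] at h1
    apply Subtype.ext
    show ((g * x * g⁻¹ : G) : G ⧸ N) = ((h * x * h⁻¹ : G) : G ⧸ N)
    rw [QuotientGroup.eq]
    have h2 := hN.conj_mem _ h1 g
    have h3 : g * (x⁻¹ * (g⁻¹ * h * x * (g⁻¹ * h)⁻¹)) * g⁻¹ =
        (g * x * g⁻¹)⁻¹ * (h * x * h⁻¹) := by group
    rwa [h3] at h2
  · intro a b hab
    obtain ⟨g, rfl⟩ := QuotientGroup.mk_surjective a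
    obtain ⟨h, rfl⟩ := QuotientGroup.mk_surjective b
    have h1 : ((g * x * g⁻¹ : G) : G ⧸ N) = ((h * x * h⁻¹ : G) : G ⧸ N) := congrArg Subtype.val hab
    rw [QuotientGroup.eq] at h1 ⊢
    rw [mem_CN]
    have h2 := hN.conj_mem _ h1 g⁻¹
    have h3 : g⁻¹ * ((g * x * g⁻¹)⁻¹ * (h * x * h⁻¹)) * g⁻¹⁻¹ =
        x⁻¹ * (g⁻¹ * h * x * (g⁻¹ * h)⁻¹) := by group
    rwa [h3] at h2
  · rintro ⟨y, hy⟩
    obtain ⟨z, ⟨c, hc⟩, hz⟩ := exists_of_isConj_mk N hy
    exact ⟨QuotientGroup.mk c, Subtype.ext (by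
      show (((c : G) * x * (c : G)⁻¹ : G) : G ⧸ N) = y
      rw [← hz]
      congr 1
      have := hc.eq
      rw [this]; simp)⟩

omit [Finite G] in
lemma cs_mul_card [Finite G] (x : G) : cs x * Nat.card (CN ⊥ inferInstance x) = Nat.card G := by
  rw [← index_CN_bot x, mul_comm, Subgroup.card_mul_index]

lemma cs_mul_center_le (x : G) : cs x * Nat.card (Subgroup.center G) ≤ Nat.card G := by
  rw [← cs_mul_card x]
  apply Nat.mul_le_mul_left
  apply Subgroup.card_le_of_le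
  intro z hz
  rw [mem_CN, Subgroup.mem_bot]
  have := Subgroup.mem_center_iff.1 hz x
  rw [← this]; group

lemma cs_le_commutator (x : G) : cs x ≤ Nat.card (commutator G) := by
  unfold cs
  rw [← Nat.card_coe_set_eq]
  apply Nat.card_le_card_of_injective (fun y : {y : G | IsConj x y} => (⟨x⁻¹ * y.1, by
    obtain ⟨g, hg⟩ := isConj_iff.1 y.2
    rw [← hg, commutator_eq_closure]
    apply Subgroup.subset_closure
    refine ⟨x⁻¹, g, ?_⟩
    rw [commutatorElement_def]; group⟩ : commutator G))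
  intro a b h
  have := congrArg Subtype.val h
  exact Subtype.ext (mul_left_cancel this)

lemma cs_prime_pow {p : ℕ} [Fact p.Prime] (hG : IsPGroup p G) (x : G) : ∃ n, cs x = p ^ n := by
  rw [← index_CN_bot x]
  exact hG.index _

lemma two_mul_cs_le {p : ℕ} [hp : Fact p.Prime] (hG : IsPGroup p G) (x : G)
    (hx : cs x ≠ Nat.card (commutator G)) : 2 * cs x ≤ Nat.card (commutator G) := by
  obtain ⟨n, hn⟩ := cs_prime_pow hG x
  obtain ⟨m, hm⟩ := IsPGroup.iff_card.1 (hG.to_subgroup (commutator G))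
  have h1 := cs_le_commutator x
  rw [hn, hm] at h1 hx ⊢
  have h2 : n < m := by
    rcases lt_or_ge n m with h | h
    · exact h
    · exfalso
      exact hx (le_antisymm h1 (Nat.pow_le_pow_right hp.out.pos h))
  calc 2 * p ^ n ≤ p * p ^ n := Nat.mul_le_mul_right _ hp.out.two_le
    _ = p ^ (n + 1) := by ring
    _ ≤ p ^ m := Nat.pow_le_pow_right hp.out.pos h2

end sizes

end Pool.Agent.Lib.MP_f3d5fe_al
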