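import Pool.Agent.Lib.MP_f3d5fe_al.ChainBound

set_option autoImplicit false

namespace Pool.Agent.Lib.MP_f3d5fe_al

open Classical Finset

universe u

lemma index_comm_ge {G : Type u} [Group G] [Finite G] {p : ℕ} [hp : Fact p.Prime]
    (hG : IsPGroup p G) (hnt : (⊤ : Subgroup G) ≠ ⊥) : p ≤ (commutator G).index := by
  have h1 : commutator G ≠ ⊤ := commutator_ne hG ⊤ hnt
  obtain ⟨n, hn⟩ := hG.index (commutator G)
  have h2 := Subgroup.one_lt_index_of_ne_top h1
  rw [hn] at h2 ⊢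
  have h3 : n ≠ 0 := by
    rintro rfl
    rw [pow_zero] at h2
    exact lt_irrefl _ h2
  calc p = p ^ 1 := (pow_one p).symm
    _ ≤ p ^ n := Nat.pow_le_pow_right hp.out.pos (Nat.one_le_iff_ne_zero.2 h3)

theorem caseA (a : ℝ) : ∃ K : ℝ, ∀ (G : Type u) [Group G] [Fintype G] (p : ℕ) [Fact p.Prime],
    IsPGroup p G → (⊤ : Subgroup G) ≠ ⊥ → zz G = a * kk G →
    (((commutator G).index : ℕ) : ℝ) < 2 * (NL G).card → kk G ≤ K := by
  set L : ℕ := ⌈6 * a⌉₊ with hL
  set e1 : ℕ := ⌈2 * a⌉₊ + 1 with he1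
  set C1 : ℕ := L ^ e1 with hC1
  obtain ⟨h1, h1pos, hH1⟩ := exists_H.{u} L C1
  set J : ℕ := ⌈2 * h1 * a⌉₊ + 1 with hJ
  set e2 : ℕ := ⌈12 * a ^ 2 * (L : ℝ) ^ J⌉₊ + 1 with he2
  set C2 : ℕ := L ^ e2 with hC2
  obtain ⟨h2, h2pos, hH2⟩ := exists_H.{u} L C2
  refine ⟨2 * h1 * (L : ℝ) ^ J + 24 * a * h1 * (h1 * h2) * (L : ℝ) ^ J, ?_⟩
  intro G _ _ p _ hG hnt ha hA
  have hp := Fact.out (p := p.Prime)
  have hkpos : 0 < kk G := kk_pos
  have hl6 := index_le hG a ha hA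
  have hpl : p ≤ (commutator G).index := index_comm_ge hG hnt
  have hlL : (commutator G).index ≤ L := Nat.cast_le.1 (hl6.trans (Nat.le_ceil _))
  have hpL : p ≤ L := hpl.trans hlL
  have ha0 : 0 < a := by
    have : (0 : ℝ) < (((commutator G).index : ℕ) : ℝ) := by
      exact_mod_cast lt_of_lt_of_le hp.pos hpl
    linarith
  obtain ⟨x0, hx0⟩ := exists_x0 hG a ha hA
  obtain ⟨H1, hH1n, hH1i, hH1c⟩ := hH1 G p hG hlL
  obtain ⟨H2, hH2n, hH2i, hH2c⟩ := hH2 G p hG hlL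
  have he1' : 2 * a ≤ (e1 : ℝ) := by
    rw [he1]; push_cast
    linarith [Nat.le_ceil (2 * a)]
  set A : Subgroup G := Subgroup.centralizer (H1 : Set G) ⊓ H1 with hAdef
  have hAn : A.Normal := by
    rw [hAdef]; infer_instance
  have hkA : kk G ≤ 2 * (h1 : ℝ) * ((Nat.card A : ℕ) : ℝ) :=
    kk_le_card_A hG a ha e1 C1 h1 (Nat.pow_le_pow_left hpL e1) he1' (Nat.succ_pos _) H1 hH1i hH1c
  have hAcs : ∀ x ∈ A, cs x ≤ h1 := fun x hx => (cs_le_index H1 hx.1).trans hH1i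
  obtain ⟨r, hr⟩ := IsPGroup.iff_card.1 (hG.to_subgroup A)
  obtain ⟨N, hN⟩ := exists_chain hG r A hr
  have hL1 : (1 : ℝ) ≤ L := by
    have : 1 ≤ L := hp.one_lt.le.trans hpL
    exact_mod_cast this
  have hPpos : (0 : ℝ) < (L : ℝ) ^ J := by positivity
  have h1pos' : (0 : ℝ) < h1 := by exact_mod_cast h1pos
  have h2pos' : (0 : ℝ) < h2 := by exact_mod_cast h2pos
  have hpL' : (p : ℝ) ≤ L := by exact_mod_cast hpL
  rcases lt_or_ge r J with hrJ | hrJ
  · -- `A` is small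
    have h3 : ((Nat.card A : ℕ) : ℝ) ≤ (L : ℝ) ^ J := by
      rw [hr]
      push_cast
      calc (p : ℝ) ^ r ≤ (L : ℝ) ^ r := pow_le_pow_left₀ (Nat.cast_nonneg _) hpL' r
        _ ≤ (L : ℝ) ^ J := pow_le_pow_right₀ hL1 hrJ.le
    have h4 : kk G ≤ 2 * (h1 : ℝ) * (L : ℝ) ^ J :=
      hkA.trans (mul_le_mul_of_nonneg_left h3 (by positivity))
    have h5 : 0 ≤ 24 * a * h1 * (h1 * h2) * (L : ℝ) ^ J := by positivity
    linarith
  · -- `A` is large
    have h3 := chain_bound hN h1 hAcs J hrJ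
    set M := ⁅A, (⊤ : Subgroup G)⁆ with hM
    have hJ' : 2 * h1 * a + 1 ≤ (J : ℝ) := by
      rw [hJ]; push_cast
      linarith [Nat.le_ceil (2 * h1 * a)]
    have h4 : kk G ≤ kk (G ⧸ M) * (p : ℝ) ^ J := by
      rw [ha] at h3
      nlinarith
    have h5 : kk (G ⧸ M) ≤ 6 * a * kk (G ⧸ A) := bad_bound A (center_quot_le hx0 M)
    have h6 : (H1 ⊓ H2).index ≤ h1 * h2 :=
      Subgroup.index_inf_le.trans (Nat.mul_le_mul hH1i hH2i)
    set R : Subgroup G := Subgroup.centralizer ((H1 ⊓ H2 : Subgroup G) : Set G) with hR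
    have hAR : A ≤ R := by
      intro x hx
      rw [hR, Subgroup.mem_centralizer_iff]
      exact fun y hy => Subgroup.mem_centralizer_iff.1 hx.1 y hy.1
    have h7 := kk_quot_le A R hAR
    have h8 : ((Nat.card R : ℕ) : ℝ) ≤ (h1 * h2 : ℝ) * kk G := by
      refine (card_centralizer_le (H1 ⊓ H2)).trans ?_
      apply mul_le_mul_of_nonneg_right _ hkpos.le
      exact_mod_cast h6
    set S := ∑ x ∈ univ.filter (fun x : G => x ∉ R), w x with hS
    have hS0 : 0 ≤ S := Finset.sum_nonneg fun x _ => (w_pos x).le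
    have h9 : (e2 : ℝ) * S ≤ a * kk G := by
      refine le_trans ?_ (sum_large hG a ha e2 C2 (Nat.pow_le_pow_left hpL e2))
      apply mul_le_mul_of_nonneg_left _ (Nat.cast_nonneg _)
      exact sum_outside_centralizer (H1 ⊓ H2) C2 fun x hx y hy => hH2c x hx y hy.2
    have hApos : (0 : ℝ) < ((Nat.card A : ℕ) : ℝ) := card_N_pos A
    have h10 : ((Nat.card R : ℕ) : ℝ) / ((Nat.card A : ℕ) : ℝ) ≤ 2 * h1 * (h1 * h2) := by
      rw [div_le_iff₀ hApos]
      refine h8.trans ?_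
      have h11 := mul_le_mul_of_nonneg_left hkA (by positivity : (0 : ℝ) ≤ h1 * h2)
      refine h11.trans (le_of_eq ?_)
      ring
    have h12 : kk (G ⧸ A) ≤ 2 * h1 * (h1 * h2) + S := h7.trans (by linarith)
    have h13 : (p : ℝ) ^ J ≤ (L : ℝ) ^ J := pow_le_pow_left₀ (Nat.cast_nonneg _) hpL' J
    have h14 : kk G ≤ 6 * a * (2 * h1 * (h1 * h2) + S) * (L : ℝ) ^ J := by
      have h15 : kk (G ⧸ M) ≤ 6 * a * (2 * h1 * (h1 * h2) + S) :=
        h5.trans (mul_le_mul_of_nonneg_left h12 (by positivity))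
      calc kk G ≤ kk (G ⧸ M) * (p : ℝ) ^ J := h4
        _ ≤ kk (G ⧸ M) * (L : ℝ) ^ J := mul_le_mul_of_nonneg_left h13 kk_pos.le
        _ ≤ 6 * a * (2 * h1 * (h1 * h2) + S) * (L : ℝ) ^ J :=
          mul_le_mul_of_nonneg_right h15 hPpos.le
    have he2' : 12 * a ^ 2 * (L : ℝ) ^ J ≤ (e2 : ℝ) := by
      rw [he2]; push_cast
      linarith [Nat.le_ceil (12 * a ^ 2 * (L : ℝ) ^ J)]
    have he2pos : (0 : ℝ) < e2 := by
      have : 0 < e2 := Nat.succ_pos _
      exact_mod_cast this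
    have h16 : 6 * a * S * (L : ℝ) ^ J ≤ kk G / 2 := by
      have h17 : (e2 : ℝ) * (6 * a * S * (L : ℝ) ^ J) ≤ e2 * (kk G / 2) := by
        calc (e2 : ℝ) * (6 * a * S * (L : ℝ) ^ J) = (6 * a * (L : ℝ) ^ J) * (e2 * S) := by ring
          _ ≤ (6 * a * (L : ℝ) ^ J) * (a * kk G) :=
            mul_le_mul_of_nonneg_left h9 (by positivity)
          _ = (12 * a ^ 2 * (L : ℝ) ^ J) * (kk G / 2) := by ring
          _ ≤ e2 * (kk G / 2) := mul_le_mul_of_nonneg_right he2' (by linarith)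
      exact le_of_mul_le_mul_left h17 he2pos
    have h18 : 6 * a * (2 * h1 * (h1 * h2) + S) * (L : ℝ) ^ J =
        12 * a * h1 * (h1 * h2) * (L : ℝ) ^ J + 6 * a * S * (L : ℝ) ^ J := by ring
    rw [h18] at h14
    have h19 : 0 ≤ 2 * h1 * (L : ℝ) ^ J := by positivity
    linarith

/-- The number of classes of a group of order `p ^ s` is more than `s`. -/
lemma kk_gt {G : Type u} [Group G] [Fintype G] {p : ℕ} [hp : Fact p.Prime]
    (hG : IsPGroup p G) {s : ℕ} (hs : Nat.card G = p ^ s) : (s : ℝ) ≤ kk G := by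
  obtain ⟨N, hN⟩ := exists_chain hG s (⊤ : Subgroup G) (by rw [Subgroup.card_top, hs])
  have hex : ∀ i : Fin s, ∃ z : G, z ∈ N (i + 1) ∧ z ∉ N i := fun i => hN.exists_notMem i.2
  choose z hz hz' using hex
  have hinj : Function.Injective (fun i : Fin s => ConjClasses.mk (z i)) := by
    have key : ∀ i j : Fin s, ConjClasses.mk (z i) = ConjClasses.mk (z j) → ¬ i < j := by
      intro i j hij hlt
      rw [ConjClasses.mk_eq_mk_iff_isConj] at hij
      obtain ⟨c, hc⟩ := isConj_iff.1 hij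
      have h1 : z i ∈ N j := hN.mono (i := i + 1) (j := j) hlt j.2.le (hz i)
      have h2 := (hN.normal j).conj_mem _ h1 c
      rw [hc] at h2
      exact hz' j h2
    intro i j hij
    rcases lt_trichotomy i j with h | h | h
    · exact absurd h (key i j hij)
    · exact h
    · exact absurd h (key j i hij.symm)
  have h1 := Nat.card_le_card_of_injective _ hinj
  rw [Nat.card_fin] at h1
  unfold kk
  exact_mod_cast h1

lemma nonabelian_NL {G : Type u} [Group G] [Fintype G] (h : ∃ x y : G, x * y ≠ y * x) :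
    1 ≤ (NL G).card := by
  by_contra hcon
  have h0 : (NL G).card = 0 := by omega
  obtain ⟨x, y, hxy⟩ := h
  have h1 := kk_eq_add (G := G)
  rw [h0] at h1
  have h2 : kk G = (((commutator G).index : ℕ) : ℝ) := by rw [h1]; simp
  -- all class sizes are equal to the order of the derived subgroup
  have hd : (0 : ℝ) < ((Nat.card (commutator G) : ℕ) : ℝ) := by exact_mod_cast Nat.card_pos
  have h3 : w (1 : G) = ((Nat.card (commutator G) : ℕ) : ℝ)⁻¹ := by
    by_contra hne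
    have h4 : ∑ x : G, ((Nat.card (commutator G) : ℕ) : ℝ)⁻¹ < ∑ x : G, w x :=
      Finset.sum_lt_sum (fun x _ => w_ge x) ⟨1, mem_univ _, lt_of_le_of_ne (w_ge 1) (Ne.symm hne)⟩
    rw [← kk_eq, Finset.sum_const, nsmul_eq_mul, Finset.card_univ, ← Nat.card_eq_fintype_card,
      ← index_mul_card_comm, h2, mul_assoc, mul_inv_cancel₀ hd.ne', mul_one] at h4
    exact lt_irrefl _ h4
  have h5 : cs (1 : G) = 1 := by
    unfold cs
    rw [Set.ncard_eq_one]
    refine ⟨1, ?_⟩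
    ext y
    simp only [Set.mem_ofPred_eq, Set.mem_singleton_iff]
    exact isConj_one_right
  unfold w at h3
  rw [h5] at h3
  have h6 : Nat.card (commutator G) = 1 := by
    have h7 := inv_injective h3
    exact_mod_cast h7.symm
  rw [Subgroup.card_eq_one] at h6
  have h8 : x * y * x⁻¹ * y⁻¹ ∈ commutator G := by
    rw [commutator_eq_closure]
    apply Subgroup.subset_closure
    exact ⟨x, y, by rw [commutatorElement_def]⟩
  rw [h6, Subgroup.mem_bot] at h8
  apply hxy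
  calc x * y = (x * y * x⁻¹ * y⁻¹) * (y * x) := by group
    _ = y * x := by rw [h8, one_mul]

/-- The order of a nonabelian `p`-group is bounded in terms of `zz G / kk G`. -/
theorem order_bound (a : ℝ) : ∃ B : ℝ, ∀ (p : ℕ) [Fact p.Prime] (G : Type u) [Group G]
    [Fintype G], IsPGroup p G → (∃ x y : G, x * y ≠ y * x) → zz G = a * kk G →
    ((Nat.card G : ℕ) : ℝ) ≤ B := by
  obtain ⟨K, hK⟩ := caseA.{u} a
  set B0 : ℝ := max K (18 * a ^ 2 / (⌊a⌋ + 1 - a)) with hB0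
  set b : ℕ := ⌈B0⌉₊ with hb
  refine ⟨((b ^ b : ℕ) : ℝ), ?_⟩
  intro p _ G _ _ hG hna ha
  have hp := Fact.out (p := p.Prime)
  have hkpos : 0 < kk G := kk_pos
  have hnt : (⊤ : Subgroup G) ≠ ⊥ := by
    intro h
    obtain ⟨x, y, hxy⟩ := hna
    have h1 : ∀ z : G, z = 1 := fun z => by
      have : z ∈ (⊤ : Subgroup G) := Subgroup.mem_top z
      rw [h, Subgroup.mem_bot] at this
      exact this
    exact hxy (by rw [h1 x, h1 y])
  have hk : kk G ≤ B0 := by
    rcases lt_or_ge (((commutator G).index : ℕ) : ℝ) (2 * (((NL G).card : ℕ) : ℝ)) with hA | hB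
    · exact (hK G p hG hnt ha hA).trans (le_max_left _ _)
    · obtain ⟨h1, h2, h3⟩ := caseB hG a ha (nonabelian_NL hna) hB
      refine le_trans ?_ (le_max_right _ _)
      set t : ℝ := (((NL G).card : ℕ) : ℝ) with ht
      have h4 : (⌊a⌋ : ℝ) + 1 ≤ t := by
        have h5 : ⌊a⌋ < ((NL G).card : ℤ) := by
          rw [Int.floor_lt]
          exact_mod_cast h1
        have h6 : ⌊a⌋ + 1 ≤ ((NL G).card : ℤ) := h5
        rw [ht]
        exact_mod_cast h6
      have h5 : 0 < (⌊a⌋ : ℝ) + 1 - a := by linarith [Int.lt_floor_add_one a]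
      have ht0 : 0 ≤ t := Nat.cast_nonneg _
      rw [le_div_iff₀ h5]
      calc kk G * (⌊a⌋ + 1 - a) ≤ kk G * (t - a) :=
            mul_le_mul_of_nonneg_left (by linarith) hkpos.le
        _ = (t - a) * kk G := by ring
        _ ≤ 2 * t ^ 2 := h3
        _ ≤ 2 * (3 * a) ^ 2 := by
            apply mul_le_mul_of_nonneg_left _ (by norm_num)
            exact pow_le_pow_left₀ ht0 h2 2
        _ = 18 * a ^ 2 := by ring
  obtain ⟨s, hs⟩ := IsPGroup.iff_card.1 hG
  have hsk := kk_gt hG hs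
  have hpk : (p : ℝ) ≤ kk G := by
    rw [kk_eq_add]
    have h1 : (p : ℝ) ≤ (((commutator G).index : ℕ) : ℝ) := by exact_mod_cast index_comm_ge hG hnt
    have h2 : (0 : ℝ) ≤ (((NL G).card : ℕ) : ℝ) := Nat.cast_nonneg _
    linarith
  have hsb : s ≤ b := Nat.cast_le.1 ((hsk.trans hk).trans (Nat.le_ceil _))
  have hpb : p ≤ b := Nat.cast_le.1 ((hpk.trans hk).trans (Nat.le_ceil _))
  rw [hs]
  have : p ^ s ≤ b ^ b :=
    (Nat.pow_le_pow_left hpb s).trans (Nat.pow_le_pow_right (hp.pos.trans_le hpb) hsb)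
  exact_mod_cast this

end Pool.Agent.Lib.MP_f3d5fe_al
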