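import Pool.Agent.Lib.MP_f3d5fe_al.Chars

set_option autoImplicit false

namespace Pool.Agent.Lib.MP_f3d5fe_al

open Classical Finset

universe u

section weights0

variable {G : Type u} [Group G]

/-- The size of the conjugacy class of `x`. -/
noncomputable def cs (x : G) : ℕ := Set.ncard {y : G | IsConj x y}

lemma cs_pos [Finite G] (x : G) : 0 < cs x :=
  (Set.ncard_pos (Set.toFinite _)).2 ⟨x, IsConj.refl x⟩

lemma cs_conj {x y : G} (h : IsConj x y) : cs x = cs y := by
  unfold cs
  congr 1
  ext z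
  exact ⟨fun hz => h.symm.trans hz, fun hz => h.trans hz⟩

end weights0

section weights

variable {G : Type u} [Group G] [Fintype G]

/-- The weight of an element: the inverse of the size of its class. -/
noncomputable def w (x : G) : ℝ := (cs x : ℝ)⁻¹

lemma w_pos (x : G) : 0 < w x := inv_pos.2 (by exact_mod_cast cs_pos x)

lemma w_le_one (x : G) : w x ≤ 1 := by
  apply inv_le_one_of_one_le₀
  exact_mod_cast cs_pos x

lemma sum_w_class (K : ConjClasses G) : ∑ x ∈ univ.filter (fun x : G => ConjClasses.mk x = K), w x = 1 := by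
  obtain ⟨g, rfl⟩ := ConjClasses.mk_surjective K
  have h1 : ∀ x ∈ univ.filter (fun x : G => ConjClasses.mk x = ConjClasses.mk g), w x = w g := by
    intro x hx
    simp only [mem_filter, mem_univ, true_and, ConjClasses.mk_eq_mk_iff_isConj] at hx
    unfold w
    rw [cs_conj hx]
  rw [Finset.sum_congr rfl h1, Finset.sum_const, nsmul_eq_mul]
  have h2 : (univ.filter (fun x : G => ConjClasses.mk x = ConjClasses.mk g)).card = cs g := by
    unfold cs
    rw [← Set.ncard_coe_finset]
    congr 1
    ext x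
    simp only [coe_filter, mem_univ, true_and, ConjClasses.mk_eq_mk_iff_isConj, Set.mem_setOf_eq]
    exact isConj_comm
  rw [h2]
  unfold w
  have := cs_pos g
  field_simp

/-- The number of classes with a property is the weighted number of elements with it. -/
lemma card_classes (P : ConjClasses G → Prop) :
    ((univ.filter P).card : ℝ) = ∑ x ∈ univ.filter (fun x : G => P (ConjClasses.mk x)), w x := by
  rw [← Finset.sum_fiberwise (univ.filter (fun x : G => P (ConjClasses.mk x))) ConjClasses.mk w]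
  rw [Finset.card_eq_sum_ones, Finset.sum_filter]
  push_cast
  refine Finset.sum_congr rfl fun K _ => ?_
  by_cases h : P K
  · rw [if_pos h]
    conv_lhs => rw [← sum_w_class K]
    refine Finset.sum_congr ?_ fun _ _ => rfl
    ext x
    simp only [mem_filter, mem_univ, true_and]
    constructor
    · intro hx; exact ⟨by rw [hx]; exact h, hx⟩
    · exact fun hx => hx.2
  · rw [if_neg h]
    symm
    apply Finset.sum_eq_zero
    intro x hx
    simp only [mem_filter, mem_univ, true_and] at hx
    exact absurd (hx.2 ▸ hx.1) h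

/-- The number of conjugacy classes. -/
noncomputable def kk (G : Type u) [Group G] : ℝ := Nat.card (ConjClasses G)

lemma kk_eq : kk G = ∑ x : G, w x := by
  have h := card_classes (G := G) (fun _ => True)
  simp only [Finset.filter_true] at h
  rw [kk, Nat.card_eq_fintype_card, ← h]
  rfl

lemma kk_pos : 0 < kk G := by
  rw [kk_eq]
  exact Finset.sum_pos (fun x _ => w_pos x) ⟨1, mem_univ _⟩

/-- The finite set of irreducible characters. -/
noncomputable def IrrF (G : Type u) [Group G] [Fintype G] : Finset (G → ℂ) :=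
  (Set.toFinite (Irr G)).toFinset

lemma mem_IrrF {χ : G → ℂ} : χ ∈ IrrF G ↔ χ ∈ Irr G := by simp [IrrF]

lemma card_IrrF : ((IrrF G).card : ℝ) = kk G := by
  rw [kk, ← card_Irr, Nat.card_coe_set_eq, IrrF,
    Set.ncard_eq_toFinset_card (Irr G) (Set.toFinite (Irr G))]

/-- The zero entries of the character table of `G`: the pairs consisting of an irreducible
character and a conjugacy class on which it vanishes. -/
def zeroEntries (G : Type u) [Group G] : Set ((G → ℂ) × ConjClasses G) :=
  {e | e.1 ∈ Irr G ∧ ∀ g : G, ConjClasses.mk g = e.2 → e.1 g = 0}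

/-- The number of zeros of the character table. -/
noncomputable def zz (G : Type u) [Group G] : ℝ := (zeroEntries G).ncard

lemma zz_eq : zz G = ∑ χ ∈ IrrF G, ∑ x ∈ univ.filter (fun x : G => χ x = 0), w x := by
  have h1 : zeroEntries G = ((IrrF G ×ˢ (univ : Finset (ConjClasses G))).filter
      (fun e => ∀ g : G, ConjClasses.mk g = e.2 → e.1 g = 0) : Finset _) := by
    ext ⟨χ, K⟩
    simp [zeroEntries, mem_IrrF]
  rw [zz, h1, Set.ncard_coe_finset, Finset.card_filter, Finset.sum_product]
  push_cast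
  refine Finset.sum_congr rfl fun χ hχ => ?_
  rw [mem_IrrF] at hχ
  have h2 := card_classes (G := G) (fun K => ∀ g : G, ConjClasses.mk g = K → χ g = 0)
  rw [Finset.card_filter] at h2
  push_cast at h2
  rw [h2]
  refine Finset.sum_congr ?_ fun _ _ => rfl
  ext x
  simp only [mem_filter, mem_univ, true_and]
  constructor
  · exact fun h => h x rfl
  · intro h g hg
    rw [ConjClasses.mk_eq_mk_iff_isConj] at hg
    rw [Irr_isConj hχ hg, h]

lemma zz_eq' : zz G = ∑ x : G, w x * ((IrrF G).filter (fun χ => χ x = 0)).card := by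
  rw [zz_eq]
  simp_rw [Finset.sum_filter]
  rw [Finset.sum_comm]
  refine Finset.sum_congr rfl fun x _ => ?_
  rw [← Finset.sum_filter, Finset.sum_const, nsmul_eq_mul, mul_comm]

omit [Fintype G] in
lemma zz_nonneg : 0 ≤ zz G := Nat.cast_nonneg _

end weights

section quotient

variable {G : Type u} [Group G] [Fintype G] (N : Subgroup G) [N.Normal]

omit [Fintype G] in
lemma isConj_mk {x y : G} (h : IsConj x y) : IsConj (x : G ⧸ N) (y : G ⧸ N) := by
  obtain ⟨c, hc⟩ := isConj_iff.1 h
  rw [← hc]
  exact isConj_iff.2 ⟨(c : G ⧸ N), rfl⟩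

omit [Fintype G] in
lemma exists_of_isConj_mk {x : G} {y : G ⧸ N} (h : IsConj (x : G ⧸ N) y) :
    ∃ z : G, IsConj x z ∧ (z : G ⧸ N) = y := by
  obtain ⟨c, hc⟩ := isConj_iff.1 h
  obtain ⟨g, rfl⟩ := QuotientGroup.mk_surjective c
  exact ⟨g * x * g⁻¹, isConj_iff.2 ⟨g, rfl⟩, hc⟩

lemma cs_mk_le (x : G) : cs (x : G ⧸ N) ≤ cs x := by
  have h : {y : G ⧸ N | IsConj (x : G ⧸ N) y} ⊆
      (fun y : G => (y : G ⧸ N)) '' {y : G | IsConj x y} := by
    intro y hy
    obtain ⟨z, hz, rfl⟩ := exists_of_isConj_mk N hy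
    exact ⟨z, hz, rfl⟩
  exact (Set.ncard_le_ncard h (Set.toFinite _)).trans (Set.ncard_image_le (Set.toFinite _))

lemma cs_le_mk (x : G) : cs x ≤ Nat.card N * cs (x : G ⧸ N) := by
  have h : {y : G | IsConj x y} ⊆
      (fun y : G => (y : G ⧸ N)) ⁻¹' {y : G ⧸ N | IsConj (x : G ⧸ N) y} := by
    intro y hy
    exact isConj_mk N hy
  refine (Set.ncard_le_ncard h (Set.toFinite _)).trans (le_of_eq ?_)
  rw [← Nat.card_coe_set_eq, Nat.card_congr (QuotientGroup.preimageMkEquivSubgroupProdSet N _),
    Nat.card_prod, cs, Nat.card_coe_set_eq]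

omit [N.Normal] in
lemma card_fiber (y : G ⧸ N) :
    (univ.filter fun x : G => (x : G ⧸ N) = y).card = Nat.card N := by
  obtain ⟨g, rfl⟩ := QuotientGroup.mk_surjective y
  rw [Nat.card_eq_fintype_card]
  symm
  refine Finset.card_bij (fun (n : N) _ => g * n) ?_ ?_ ?_
  · intro n _
    simp only [mem_filter, mem_univ, true_and]
    rw [QuotientGroup.mk_mul_of_mem _ n.2]
  · intro a _ b _ h
    exact Subtype.ext (mul_left_cancel h)
  · intro x hx
    simp only [mem_filter, mem_univ, true_and] at hx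
    refine ⟨⟨g⁻¹ * x, ?_⟩, mem_univ _, by simp⟩
    rw [← QuotientGroup.eq]
    exact hx.symm

omit [N.Normal] in
lemma card_N_pos : (0 : ℝ) < Nat.card N := by
  exact_mod_cast Nat.card_pos

omit [N.Normal] in
/-- Summing over the quotient. -/
lemma sum_quotient (P : G ⧸ N → Prop) (F : G ⧸ N → ℝ) :
    (Nat.card N : ℝ) * ∑ y ∈ univ.filter P, F y =
      ∑ x ∈ univ.filter (fun x : G => P (x : G ⧸ N)), F (x : G ⧸ N) := by
  rw [← Finset.sum_fiberwise_of_maps_to (t := univ.filter P) (g := fun x : G => (x : G ⧸ N))]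
  · rw [Finset.mul_sum]
    refine Finset.sum_congr rfl fun y hy => ?_
    rw [Finset.sum_congr rfl (g := fun _ => F y), Finset.sum_const, nsmul_eq_mul]
    · congr 2
      rw [← card_fiber N y]
      congr 1
      ext z
      simp only [mem_filter, mem_univ, true_and] at hy ⊢
      constructor
      · exact fun h => ⟨by rw [h]; exact hy, h⟩
      · exact fun h => h.2
    · intro x hx
      simp only [mem_filter, mem_univ, true_and] at hx
      rw [hx.2]
  · intro x hx
    simpa using hx

lemma sum_w_quotient_le (P : G ⧸ N → Prop) :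
    ∑ y ∈ univ.filter P, w y ≤ ∑ x ∈ univ.filter (fun x : G => P (x : G ⧸ N)), w x := by
  have hN := card_N_pos N
  have h := sum_quotient N P w
  have h2 : ∑ x ∈ univ.filter (fun x : G => P (x : G ⧸ N)), w (x : G ⧸ N) ≤
      (Nat.card N : ℝ) * ∑ x ∈ univ.filter (fun x : G => P (x : G ⧸ N)), w x := by
    rw [Finset.mul_sum]
    refine Finset.sum_le_sum fun x _ => ?_
    unfold w
    have h1 : (cs x : ℝ) ≤ (Nat.card N : ℝ) * cs (x : G ⧸ N) := by exact_mod_cast cs_le_mk N x
    have h3 : (0 : ℝ) < cs x := by exact_mod_cast cs_pos x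
    have h4 : (0 : ℝ) < cs (x : G ⧸ N) := by exact_mod_cast cs_pos (x : G ⧸ N)
    rw [← div_eq_mul_inv, inv_eq_one_div, div_le_div_iff₀ h4 h3]
    linarith
  rw [← h] at h2
  exact le_of_mul_le_mul_left h2 hN

lemma kk_le_card_mul : kk G ≤ (Nat.card N : ℝ) * kk (G ⧸ N) := by
  have h := sum_quotient N (fun _ => True) w
  simp only [Finset.filter_true] at h
  rw [kk_eq, kk_eq (G := G ⧸ N), h]
  refine Finset.sum_le_sum fun x _ => ?_
  unfold w
  have h3 : (0 : ℝ) < cs (x : G ⧸ N) := by exact_mod_cast cs_pos (x : G ⧸ N)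
  apply inv_anti₀ h3
  exact_mod_cast cs_mk_le N x

lemma kk_quotient_le : kk (G ⧸ N) ≤ kk G := by
  have h := sum_w_quotient_le N (fun _ => True)
  simp only [Finset.filter_true] at h
  rwa [kk_eq, kk_eq (G := G)]

end quotient

end Pool.Agent.Lib.MP_f3d5fe_al
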