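import Pool.Agent.Lib.MP_f3d5fe_al.Chain

set_option autoImplicit false

namespace Pool.Agent.Lib.MP_f3d5fe_al

open Classical Finset

universe u

section sep

variable {G : Type u} [Group G] [Finite G]

lemma exists_char_ne {z : G} (hz : z ≠ 1) : ∃ χ ∈ Irr G, χ z ≠ χ 1 := by
  by_contra hcon
  push Not at hcon
  have : Fintype G := Fintype.ofFinite G
  set f : G → ℂ := fun g => (if g = 1 then (cs z : ℂ) else 0) - (if IsConj z g⁻¹ then 1 else 0)
    with hf
  have hf0 : f = 0 := by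
    apply classFun_eq_zero
    · intro g h
      have h1 : h * g * h⁻¹ = 1 ↔ g = 1 := by
        constructor
        · intro h2
          have : g = h⁻¹ * (h * g * h⁻¹) * h := by group
          rw [this, h2]; group
        · rintro rfl; group
      have h2 : IsConj z (h * g * h⁻¹)⁻¹ ↔ IsConj z g⁻¹ := by
        have h3 : IsConj g⁻¹ (h * g * h⁻¹)⁻¹ := isConj_iff.2 ⟨h, by group⟩
        exact ⟨fun h4 => h4.trans h3.symm, fun h4 => h4.trans h3⟩
      simp only [hf, h1, h2]
    · intro χ hχ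
      simp only [hf, sub_mul, ite_mul, zero_mul, one_mul, Finset.sum_sub_distrib,
        Finset.sum_ite_eq', Finset.mem_univ, if_true, inv_one]
      rw [← Finset.sum_filter]
      have h1 : ∀ g ∈ univ.filter (fun g : G => IsConj z g⁻¹), χ g⁻¹ = χ 1 := by
        intro g hg
        rw [mem_filter] at hg
        rw [← hcon χ hχ]
        exact (Irr_isConj hχ hg.2).symm
      rw [Finset.sum_congr rfl h1, Finset.sum_const, nsmul_eq_mul]
      have h2 : (univ.filter (fun g : G => IsConj z g⁻¹)).card = cs z := by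
        unfold cs
        rw [← Set.ncard_coe_finset, ← Set.ncard_image_of_injective _ (inv_injective (G := G))]
        congr 1
        ext g
        simp only [coe_filter, mem_univ, true_and, Set.mem_image, Set.mem_ofPred_eq]
        constructor
        · rintro ⟨y, hy, rfl⟩; exact hy
        · intro hg; exact ⟨g⁻¹, by rwa [inv_inv], by rw [inv_inv]⟩
      rw [h2]
      ring
  have h1 := congrFun hf0 1
  simp only [hf, if_true, inv_one, Pi.zero_apply] at h1
  rw [if_neg] at h1
  · have := cs_pos z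
    rw [sub_zero] at h1
    exact this.ne' (by exact_mod_cast h1)
  · intro h
    exact hz (isConj_one_right.1 h.symm)

lemma exists_infl_ne (N : Subgroup G) [N.Normal] {z : G} (hz : z ∉ N) :
    ∃ χ ∈ infl N, χ z ≠ χ 1 := by
  have h1 : (z : G ⧸ N) ≠ 1 := fun h => hz ((QuotientGroup.eq_one_iff z).1 h)
  obtain ⟨ψ, hψ, hne⟩ := exists_char_ne h1
  exact ⟨fun g => ψ (g : G ⧸ N), ⟨ψ, hψ, rfl⟩, hne⟩

omit [Finite G] in
lemma infl_eq_of_mem (N : Subgroup G) [N.Normal] {z : G} (hz : z ∈ N) {χ : G → ℂ}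
    (hχ : χ ∈ infl N) : χ z = χ 1 := by
  obtain ⟨ψ, -, rfl⟩ := hχ
  show ψ ((z : G) : G ⧸ N) = ψ ((1 : G) : G ⧸ N)
  rw [(QuotientGroup.eq_one_iff z).2 hz]; rfl

omit [Finite G] in
/-- Vanishing of the characters of level `(N, N')` at the elements whose class grows there. -/
lemma vanish_level {p : ℕ} (hp : p.Prime) (N N' : Subgroup G) [N.Normal] [N'.Normal]
    (hNN' : N ≤ N') (hidx : N.relIndex N' = p) (hcomm : ∀ y ∈ N', ∀ h, y⁻¹ * (h * y * h⁻¹) ∈ N)
    {χ : G → ℂ} (hχ : χ ∈ infl N) (hχ' : χ ∉ infl N') {x g : G}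
    (h1 : x⁻¹ * (g * x * g⁻¹) ∈ N') (h2 : x⁻¹ * (g * x * g⁻¹) ∉ N) : χ x = 0 := by
  obtain ⟨n, ρ, hρ, rfl, hN⟩ := infl_exists_rep N hχ
  set c := x⁻¹ * (g * x * g⁻¹) with hc
  obtain ⟨ζ, hζ⟩ := schur ρ hρ (ρ c) (by
    intro h
    rw [← Module.End.mul_eq_comp, ← Module.End.mul_eq_comp, ← map_mul, ← map_mul]
    have h3 := hN _ (hcomm c h1 h)
    have h4 : h * c = (c * h) * (h⁻¹ * (c⁻¹ * (h * c * h⁻¹)) * h) := by group
    have h5 : ρ (h⁻¹ * (c⁻¹ * (h * c * h⁻¹)) * h) = 1 := by
      rw [map_mul, map_mul, h3, mul_one, ← map_mul, inv_mul_cancel, map_one]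
    rw [h4, map_mul ρ (c * h), h5, mul_one])
  apply char_eq_zero_of_scalar ρ x c ζ _ hζ
  · exact isConj_iff.2 ⟨g, by rw [hc]; group⟩
  · rintro rfl
    apply hχ'
    -- `ρ` is trivial on `N'`
    let M : Subgroup G := N' ⊓ MonoidHom.ker ρ
    have hM : N ≤ M := fun y hy => Subgroup.mem_inf.2 ⟨hNN' hy, MonoidHom.mem_ker.2 (hN y hy)⟩
    have hM' : M ≤ N' := inf_le_left
    have hcM : c ∈ M := Subgroup.mem_inf.2 ⟨h1, MonoidHom.mem_ker.2 (by
      rw [hζ, one_smul]; rfl)⟩
    have h3 := Subgroup.relIndex_mul_relIndex N M N' hM hM'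
    rw [hidx] at h3
    have h4 : M.relIndex N' = 1 := by
      rcases (Nat.dvd_prime hp).1 (Dvd.intro_left _ h3) with h | h
      · exact h
      · exfalso
        rw [h] at h3
        have h5 : N.relIndex M = 1 := Nat.eq_of_mul_eq_mul_right hp.pos (by rw [h3, one_mul])
        exact h2 (Subgroup.relIndex_eq_one.1 h5 hcM)
    have h5 : N' ≤ M := Subgroup.relIndex_eq_one.1 h4
    exact mem_infl_of_trivial N' ρ hρ fun y hy => MonoidHom.mem_ker.1 (Subgroup.mem_inf.1 (h5 hy)).2

end sep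

section lemmaE

variable {G : Type u} [Group G] [Fintype G] {p : ℕ} [hp : Fact p.Prime]

omit [Fintype G] in
lemma IsChain'.relIndex [Finite G] {r : ℕ} {N : ℕ → Subgroup G} {B : Subgroup G}
    (hN : IsChain' p r N B) {i : ℕ} (hi : i < r) : (N i).relIndex (N (i + 1)) = p := by
  have h3 := Subgroup.relIndex_mul_relIndex ⊥ (N i) (N (i + 1)) bot_le (hN.le i hi)
  rw [Subgroup.relIndex_bot_left, Subgroup.relIndex_bot_left,
    hN.card i hi.le, hN.card (i + 1) hi, pow_succ] at h3
  exact Nat.eq_of_mul_eq_mul_left (pow_pos hp.out.pos i) h3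

omit [Fintype G] in
lemma IsChain'.exists_notMem [Finite G] {r : ℕ} {N : ℕ → Subgroup G} {B : Subgroup G}
    (hN : IsChain' p r N B) {i : ℕ} (hi : i < r) : ∃ z ∈ N (i + 1), z ∉ N i := by
  by_contra hcon
  push Not at hcon
  have h1 : (N i).relIndex (N (i + 1)) = 1 := Subgroup.relIndex_eq_one.2 hcon
  rw [hN.relIndex hi] at h1
  exact hp.out.one_lt.ne' h1

/-- The number of irreducible characters vanishing at `x` is at least the number of levels at
which the class of `x` grows. -/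
lemma levels_le_zeros {r : ℕ} {N : ℕ → Subgroup G} (hN : IsChain' p r N ⊤) (x : G) :
    (levels r N x).card ≤ ((IrrF G).filter (fun χ => χ x = 0)).card := by
  have hex : ∀ i, i < r → ∃ χ ∈ Irr G, (∀ z ∈ N i, χ z = χ 1) ∧ (∃ z ∈ N (i + 1), χ z ≠ χ 1) ∧
      ((∃ g : G, x⁻¹ * (g * x * g⁻¹) ∈ N (i + 1) ∧ x⁻¹ * (g * x * g⁻¹) ∉ N i) → χ x = 0) := by
    intro i hi
    have := hN.normal i
    have := hN.normal (i + 1)
    obtain ⟨z, hz, hz'⟩ := hN.exists_notMem hi
    obtain ⟨χ, hχ, hne⟩ := exists_infl_ne (N i) hz'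
    refine ⟨χ, infl_subset_Irr _ hχ, fun y hy => infl_eq_of_mem (N i) hy hχ, ⟨z, hz, hne⟩, ?_⟩
    rintro ⟨g, hg, hg'⟩
    refine vanish_level hp.out (N i) (N (i + 1)) (hN.le i hi) (hN.relIndex hi) (hN.comm i hi) hχ ?_
      hg hg'
    intro h
    exact hne (infl_eq_of_mem (N (i + 1)) hz h)
  choose! X hX1 hX2 hX3 hX4 using hex
  have hmono : ∀ i j, i ≤ j → j ≤ r → N i ≤ N j := by
    intro i j hij
    induction j, hij using Nat.le_induction with
    | base => intro _; exact le_rfl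
    | succ j _ ih => intro hj; exact (ih (Nat.le_of_succ_le hj)).trans (hN.le j hj)
  apply Finset.card_le_card_of_injOn X
  · intro i hi
    rw [Finset.mem_coe, mem_levels] at hi
    rw [Finset.mem_coe, mem_filter, mem_IrrF]
    exact ⟨hX1 i hi.1, hX4 i hi.1 hi.2⟩
  · intro i hi j hj hij
    rw [Finset.mem_coe, mem_levels] at hi hj
    by_contra hne
    rcases Nat.lt_or_gt_of_ne hne with h | h
    · obtain ⟨z, hz, hz'⟩ := hX3 i hi.1
      rw [hij] at hz'
      exact hz' (hX2 j hj.1 z (hmono (i + 1) j h hj.1.le hz))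
    · obtain ⟨z, hz, hz'⟩ := hX3 j hj.1
      rw [← hij] at hz'
      exact hz' (hX2 i hi.1 z (hmono (j + 1) i h hi.1.le hz))

/-- The weighted number of classes of size at least `p ^ e` is at most `z(G) / e`. -/
lemma big_classes (hG : IsPGroup p G) (e : ℕ) :
    (e : ℝ) * ∑ x ∈ univ.filter (fun x : G => p ^ e ≤ cs x), w x ≤ zz G := by
  obtain ⟨r, hr⟩ := IsPGroup.iff_card.1 hG
  obtain ⟨N, hN⟩ := exists_chain hG r (⊤ : Subgroup G) (by rw [Subgroup.card_top, hr])
  rw [zz_eq', Finset.mul_sum]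
  refine le_trans (Finset.sum_le_sum (g := fun x : G =>
    w x * ((IrrF G).filter (fun χ => χ x = 0)).card) fun x hx => ?_)
    (Finset.sum_le_sum_of_subset_of_nonneg (Finset.filter_subset _ _) fun x _ _ =>
      mul_nonneg (w_pos x).le (Nat.cast_nonneg _))
  rw [mem_filter] at hx
  rw [mul_comm]
  apply mul_le_mul_of_nonneg_left _ (w_pos x).le
  have h1 : e ≤ (levels r N x).card := by
    have h2 := hx.2.trans (cs_le_pow_levels hN x)
    exact (Nat.pow_le_pow_iff_right hp.out.one_lt).1 h2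
  exact_mod_cast h1.trans (levels_le_zeros hN x)

end lemmaE

section centre

variable {G : Type u} [Group G] {V : Type*} [AddCommGroup V] [Module ℂ V]

/-- The elements whose image is central in the image of `ρ`. -/
def Zc (ρ : Representation ℂ G V) : Subgroup G where
  carrier := {x | ∀ g, ρ (x * g) = ρ (g * x)}
  one_mem' := fun g => by rw [one_mul, mul_one]
  mul_mem' := by
    intro x y hx hy g
    rw [mul_assoc, map_mul, hy, ← map_mul, ← mul_assoc, map_mul, hx, ← map_mul, mul_assoc]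
  inv_mem' := by
    intro x hx g
    have h := hx (x⁻¹ * g * x⁻¹)
    have h1 : x * (x⁻¹ * g * x⁻¹) = g * x⁻¹ := by group
    have h2 : x⁻¹ * g * x⁻¹ * x = x⁻¹ * g := by group
    rw [h1, h2] at h
    exact h.symm

lemma mem_Zc {ρ : Representation ℂ G V} {x : G} : x ∈ Zc ρ ↔ ∀ g, ρ (x * g) = ρ (g * x) :=
  Iff.rfl

lemma scalar_of_mem_Zc [FiniteDimensional ℂ V] {ρ : Representation ℂ G V} (hρ : ρ.IsIrreducible)
    {x : G} (hx : x ∈ Zc ρ) : ∃ c : ℂ, ρ x = c • (1 : V →ₗ[ℂ] V) := by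
  apply schur ρ hρ
  intro g
  rw [← Module.End.mul_eq_comp, ← Module.End.mul_eq_comp, ← map_mul, ← map_mul]
  exact hx g

/-- If `x` is not central modulo the kernel but all its commutators are, then the character
vanishes at `x`, and it vanishes outside a proper subgroup containing the derived subgroup. -/
lemma vanish_second_centre [FiniteDimensional ℂ V] {ρ : Representation ℂ G V}
    (hρ : ρ.IsIrreducible) {x : G} (hx : x ∉ Zc ρ)
    (hcomm : ∀ g, x⁻¹ * (g * x * g⁻¹) ∈ Zc ρ) :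
    ρ.character x = 0 ∧ ∃ K : Subgroup G, K ≠ ⊤ ∧ commutator G ≤ K ∧
      ∀ g, g ∉ K → ρ.character g = 0 := by
  have hV : Nontrivial V := nontrivial_of_irreducible ρ hρ
  have hne0 : ∀ g : G, ρ g ≠ 0 := by
    intro g hg
    have h1 : ρ g * ρ g⁻¹ = 1 := by rw [← map_mul, mul_inv_cancel, map_one]
    rw [hg, zero_mul] at h1
    exact zero_ne_one h1
  -- the scalar attached to `g`
  have hμ : ∀ g, ∃ μ : ℂ, ρ (g * x) = μ • ρ (x * g) := by
    intro g
    obtain ⟨μ, hμ⟩ := scalar_of_mem_Zc hρ (hcomm g)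
    refine ⟨μ, ?_⟩
    have h1 : g * x = x * (x⁻¹ * (g * x * g⁻¹)) * g := by group
    rw [h1, map_mul, map_mul, hμ, mul_smul_comm, mul_one, smul_mul_assoc, ← map_mul]
  choose μ hμ using hμ
  have hμ0 : ∀ g, μ g ≠ 0 := by
    intro g h
    have := hμ g
    rw [h, zero_smul] at this
    exact hne0 _ this
  have key : ∀ g, ρ (x * g) ≠ ρ (g * x) → ρ.character g = 0 ∧ ρ.character x = 0 := by
    intro g hg
    have h1 : μ g ≠ 1 := by
      intro h
      apply hg
      rw [hμ g, h, one_smul]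
    constructor
    · have h2 : ρ (x⁻¹ * g * x) = μ g • ρ g := by
        have : ρ (x⁻¹ * g * x) = ρ x⁻¹ * ρ (g * x) := by rw [← map_mul, mul_assoc]
        rw [this, hμ g, mul_smul_comm, ← map_mul, inv_mul_cancel_left]
      have h3 : ρ.character (x⁻¹ * g * x) = ρ.character g := by
        have := Representation.char_conj ρ g x⁻¹
        rwa [inv_inv] at this
      have h4 : ρ.character (x⁻¹ * g * x) = μ g * ρ.character g := by
        unfold Representation.character
        rw [h2, map_smul, smul_eq_mul]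
      rw [h3] at h4
      have h5 : (1 - μ g) * ρ.character g = 0 := by rw [sub_mul, one_mul, ← h4, sub_self]
      rcases mul_eq_zero.1 h5 with h | h
      · exact absurd (sub_eq_zero.1 h).symm h1
      · exact h
    · have h2 : ρ (g * x * g⁻¹) = μ g • ρ x := by
        rw [map_mul, hμ g, smul_mul_assoc, ← map_mul, mul_inv_cancel_right]
      have h3 : ρ.character (g * x * g⁻¹) = ρ.character x := Representation.char_conj ρ x g
      have h4 : ρ.character (g * x * g⁻¹) = μ g * ρ.character x := by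
        unfold Representation.character
        rw [h2, map_smul, smul_eq_mul]
      rw [h3] at h4
      have h5 : (1 - μ g) * ρ.character x = 0 := by rw [sub_mul, one_mul, ← h4, sub_self]
      rcases mul_eq_zero.1 h5 with h | h
      · exact absurd (sub_eq_zero.1 h).symm h1
      · exact h
  obtain ⟨g0, hg0⟩ : ∃ g, ρ (x * g) ≠ ρ (g * x) := by
    by_contra hcon
    push Not at hcon
    exact hx hcon
  refine ⟨(key g0 hg0).2, ?_⟩
  let K : Subgroup G :=
    { carrier := {g | ρ (x * g) = ρ (g * x)}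
      one_mem' := by
        show ρ (x * 1) = ρ (1 * x)
        rw [one_mul, mul_one]
      mul_mem' := by
        intro a b ha hb
        have ha' : ρ (x * a) = ρ (a * x) := ha
        have hb' : ρ (x * b) = ρ (b * x) := hb
        show ρ (x * (a * b)) = ρ (a * b * x)
        rw [← mul_assoc, map_mul, ha', ← map_mul, mul_assoc, map_mul, hb', ← map_mul, mul_assoc]
      inv_mem' := by
        intro a ha
        have ha' : ρ (x * a) = ρ (a * x) := ha
        show ρ (x * a⁻¹) = ρ (a⁻¹ * x)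
        have h1 : x * a⁻¹ = a⁻¹ * (a * x) * a⁻¹ := by group
        have h2 : a⁻¹ * x = a⁻¹ * (x * a) * a⁻¹ := by group
        rw [h1, h2, map_mul, map_mul, ← ha', ← map_mul, ← map_mul] }
  refine ⟨K, ?_, ?_, fun g hg => (key g hg).1⟩
  · intro h
    have : g0 ∈ K := by rw [h]; exact Subgroup.mem_top _
    exact hg0 this
  · rw [commutator_eq_closure, Subgroup.closure_le]
    rintro _ ⟨g, h, rfl⟩
    rw [commutatorElement_def]
    show ρ (x * (g * h * g⁻¹ * h⁻¹)) = ρ (g * h * g⁻¹ * h⁻¹ * x)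
    have hmul : ∀ a b, ρ (a * b * x) = (μ a * μ b) • ρ (x * (a * b)) := by
      intro a b
      rw [mul_assoc, map_mul, hμ b, mul_smul_comm, ← map_mul, ← mul_assoc, map_mul, hμ a,
        smul_mul_assoc, ← map_mul, smul_smul, mul_comm (μ b), mul_assoc]
    have h1 := hmul g h
    have h2 := hmul h g
    rw [mul_comm (μ h)] at h2
    set ν := μ g * μ h with hν
    have hν0 : ν ≠ 0 := mul_ne_zero (hμ0 g) (hμ0 h)
    -- `ρ (x * (h g)⁻¹) = ν • ρ ((h g)⁻¹ * x)`
    have h3 : ρ (x * (h * g)⁻¹) = ν • ρ ((h * g)⁻¹ * x) := by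
      have e1 : x * (h * g)⁻¹ = (h * g)⁻¹ * (h * g * x) * (h * g)⁻¹ := by group
      have e2 : (h * g)⁻¹ * x = (h * g)⁻¹ * (x * (h * g)) * (h * g)⁻¹ := by group
      rw [e1, map_mul, map_mul, h2, mul_smul_comm, smul_mul_assoc, ← map_mul, ← map_mul, ← e2]
    have h4 : g * h * g⁻¹ * h⁻¹ = g * h * (h * g)⁻¹ := by group
    have h5 : ν • ρ (x * (g * h * g⁻¹ * h⁻¹)) = ν • ρ (g * h * g⁻¹ * h⁻¹ * x) := by
      rw [h4]
      have e1 : ρ (x * (g * h * (h * g)⁻¹)) = ρ (x * (g * h)) * ρ ((h * g)⁻¹) := by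
        rw [← map_mul]; congr 1; group
      have e2 : ρ (g * h * (h * g)⁻¹ * x) = ρ (g * h) * ρ ((h * g)⁻¹ * x) := by
        rw [← map_mul]; congr 1; group
      rw [e1, e2, ← smul_mul_assoc, ← h1, ← mul_smul_comm, ← h3, ← map_mul, ← map_mul]
      congr 1
      group
    exact smul_right_injective _ hν0 h5

end centre

end Pool.Agent.Lib.MP_f3d5fe_al
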